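import Pool.Agent.Lib.MP_d4b800_co.Bits

namespace Pool.Agent.Lib.MP_d4b800_co

open Finset

/-- what a checked move of the Forcer certificate gives -/
def AFStep (t : T) (i V : ℕ) (e : Sym2 (Fin 9)) : Prop :=
  ∃ c < i, ∃ π : Fin 9 → Fin 9, Function.Injective π ∧
    (∀ g ∈ RS (t.getM c), Sym2.map π g ∈ RS V ∨ Sym2.map π g = e) ∧
    ∀ g ∈ RS (t.getM c >>> 160), Sym2.map π g ∈ RS (V >>> 160)

theorem afMove_sound (t : T) (i c P k : ℕ) (hk : k < 81)
    (h : afMove t i (t.getM i) c P (cell k) = true) : AFStep t i (t.getM i) (edg k) := by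
  unfold afMove at h
  cases hb : Nat.ble (Nat.succ c) i with
  | false => rw [hb] at h; exact absurd h (by simp)
  | true =>
    rw [hb] at h
    obtain ⟨π, hπ, h1, h2⟩ := perm_sem (t.getM c) P (t.getM i ||| cell k) (getM_marker t c)
      (fun j hj => by
        rw [Nat.testBit_or, cell_high hk (by omega), Bool.or_false] at hj
        exact getM_high t i j hj) h
    refine ⟨c, Nat.le_of_ble_eq_true hb, π, hπ, fun g hg => ?_, fun g hg => ?_⟩
    · obtain ⟨j, hj, hb, he⟩ := mem_RS.1 (h1 g hg)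
      rw [Nat.testBit_or, Bool.or_eq_true] at hb
      rcases hb with hb | hb
      · exact Or.inl (mem_RS.2 ⟨j, hj, hb, he⟩)
      · exact Or.inr (he ▸ (cell_spec k hk j hj).1 hb)
    · obtain ⟨j, hj, hb, he⟩ := mem_RS.1 (h2 g hg)
      rw [Nat.testBit_shiftRight, Nat.testBit_or, cell_high hk (by omega), Bool.or_false] at hb
      exact mem_RS.2 ⟨j, hj, by rwa [Nat.testBit_shiftRight], he⟩

theorem RS_zero : RS 0 = ∅ := by simp [RS]

theorem RS_remove (R k : ℕ) (hk : k < 81) : RS (R ^^^ (R &&& cell k)) = (RS R).erase (edg k) := by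
  ext e
  rw [mem_erase, mem_RS, mem_RS]
  constructor
  · rintro ⟨j, hj, hb, rfl⟩
    rw [Nat.testBit_xor, Nat.testBit_and] at hb
    have h1 := cell_spec k hk j hj
    cases h2 : R.testBit j <;> cases h3 : (cell k).testBit j <;> simp_all
    exact ⟨j, hj, h2, rfl⟩
  · rintro ⟨hne, j, hj, hb, rfl⟩
    refine ⟨j, hj, ?_, rfl⟩
    have h1 := cell_spec k hk j hj
    rw [Nat.testBit_xor, Nat.testBit_and, hb]
    cases h3 : (cell k).testBit j <;> simp_all

theorem afLoop_sound (t : T) (i fuel : ℕ) : ∀ (R D : ℕ) (par : Bool),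
    (∀ j, R.testBit j = true → j < 81) → afLoop t i (t.getM i) fuel R D par = true →
    (∀ e ∈ RS R, AFStep t i (t.getM i) e) ∧ ((RS R).card + par.toNat) % 2 = 1 := by
  induction fuel with
  | zero => intro R D par _ h; exact absurd h (by simp [afLoop])
  | succ n ih =>
    intro R D par hR h
    have h' : Bool.rec (motive := fun _ => Bool) (Bool.rec false
        (afLoop t i (t.getM i) n (R ^^^ (R &&& cell (Nat.log2 R))) (D >>> 50) (not par))
        (afMove t i (t.getM i) (D &&& 16383) (D >>> 14) (cell (Nat.log2 R))))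
        par (Nat.beq R 0) = true := h
    cases hb : Nat.beq R 0 with
    | true =>
      rw [hb] at h'
      obtain rfl := Nat.eq_of_beq_eq_true hb
      simp only at h'
      simp [RS_zero, h']
    | false =>
      rw [hb] at h'
      have hbit := log2_bit hb
      have hk := hR _ hbit
      cases hm : afMove t i (t.getM i) (D &&& 16383) (D >>> 14) (cell (Nat.log2 R)) with
      | false => rw [hm] at h'; exact absurd h' (by simp)
      | true =>
        rw [hm] at h'
        obtain ⟨h1, h2⟩ := ih _ _ _ (fun j hj => hR j (by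
          rw [Nat.testBit_xor, Nat.testBit_and] at hj
          cases h2 : R.testBit j <;> simp_all)) h'
        rw [RS_remove _ _ hk] at h1 h2
        have hmem : edg (Nat.log2 R) ∈ RS R := mem_RS.2 ⟨_, hk, hbit, rfl⟩
        refine ⟨fun e he => ?_, ?_⟩
        · by_cases hee : e = edg (Nat.log2 R)
          · rw [hee]; exact afMove_sound t i _ _ _ hk hm
          · exact h1 e (mem_erase.2 ⟨hee, he⟩)
        · rw [card_erase_of_mem hmem] at h2
          have := card_pos.2 ⟨_, hmem⟩
          cases par <;> simp at h2 ⊢ <;> omega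

/-- what a checked node gives -/
def AFGood (t : T) (i : ℕ) : Prop :=
  ∃ S : Finset (Sym2 (Fin 9)), S.card % 2 = 1 ∧
    (∀ e ∈ S, ¬ e.IsDiag ∧ e ∈ RS (t.getM i >>> 160) ∧ AFStep t i (t.getM i) e) ∧
    ∀ e ∈ RS (t.getM i >>> 160), e ∈ S ∨ e ∈ RS (t.getM i)

theorem afNode_sound (t : T) (i D : ℕ) (h : afNode t i (t.getM i) D = true) : AFGood t i := by
  obtain ⟨V, hV⟩ : ∃ V, V = t.getM i := ⟨_, rfl⟩
  have h' : (sub ((V &&& (2 ^ 160 - 1)) ||| ((V >>> 160) &&& (2 ^ 160 - 1))) JI &&
      afLoop t i (t.getM i) 40 (((V >>> 160) &&& (2 ^ 160 - 1)) ^^^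
        (V &&& ((V >>> 160) &&& (2 ^ 160 - 1)))) D false) = true := by
    rw [hV]; exact h
  rw [Bool.and_eq_true] at h'
  obtain ⟨h1, h2⟩ := h'
  have hbit : ∀ j, (((V >>> 160) &&& (2 ^ 160 - 1)) ^^^
        (V &&& ((V >>> 160) &&& (2 ^ 160 - 1)))).testBit j = true →
        JI.testBit j = true ∧ (V >>> 160).testBit j = true := by
    intro j hj
    rw [Nat.testBit_xor, Nat.testBit_and V] at hj
    have h3 : ((V >>> 160) &&& (2 ^ 160 - 1)).testBit j = true := by
      cases h4 : ((V >>> 160) &&& (2 ^ 160 - 1)).testBit j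
      · rw [h4] at hj; simp at hj
      · rfl
    refine ⟨sub_bit h1 (by rw [Nat.testBit_or, h3, Bool.or_true]), ?_⟩
    rw [Nat.testBit_and, Bool.and_eq_true] at h3
    exact h3.1
  obtain ⟨h3, h4⟩ := afLoop_sound t i 40 _ D false (fun j hj => JI_bit_lt (hbit j hj).1) h2
  refine ⟨_, by simpa using h4, fun e he => ⟨?_, ?_, h3 e he⟩, fun e he => ?_⟩
  · obtain ⟨j, hj, hb, rfl⟩ := mem_RS.1 he
    rw [edg_diag j hj]
    exact (JI_spec j hj).1 (hbit j hb).1
  · obtain ⟨j, hj, hb, rfl⟩ := mem_RS.1 he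
    rw [← hV]
    exact mem_RS.2 ⟨j, hj, (hbit j hb).2, rfl⟩
  · rw [← hV] at he ⊢
    obtain ⟨j, hj, hb, rfl⟩ := mem_RS.1 he
    cases hv : V.testBit j with
    | true => exact Or.inr (mem_RS.2 ⟨j, hj, hv, rfl⟩)
    | false =>
      refine Or.inl (mem_RS.2 ⟨j, hj, ?_, rfl⟩)
      rw [Nat.testBit_xor, Nat.testBit_and V, hv, Nat.testBit_and, hb, Nat.testBit_two_pow_sub_one]
      simp; omega

theorem afRange_sound (t : T) (l : List ℕ) : ∀ i, afRange t l i = true →
    ∀ j, i ≤ j → j < i + l.length → AFGood t j := by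
  induction l with
  | nil => intro i _ j h1 h2; simp at h2; omega
  | cons D l ih =>
    intro i h j h1 h2
    have h' : (afNode t i (t.getM i) D && afRange t l (i + 1)) = true := h
    rw [Bool.and_eq_true] at h'
    rcases h1.eq_or_lt with rfl | h3
    · exact afNode_sound t _ D h'.1
    · exact ih (i + 1) h'.2 j h3 (by simp at h2; omega)

/-- a real position is dominated by node `i` -/
def AFDom {N : ℕ} (t : T) (i : ℕ) (X Y : Finset (Sym2 (Fin N))) : Prop :=
  ∃ φ : Fin 9 → Fin N, Function.Injective φ ∧ (∀ g ∈ RS (t.getM i), Sym2.map φ g ∈ Y) ∧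
    ∀ g ∈ RS (t.getM i >>> 160), Sym2.map φ g ∉ X

theorem af_sound {N : ℕ} (t : T) (m : ℕ) (hg : ∀ i, 1 ≤ i → i ≤ m → AFGood t i)
    (h0 : HasClique 4 (RS (t.getM 0))) (n : ℕ) :
    ∀ i ≤ m, ∀ X Y : Finset (Sym2 (Fin N)), (edges N \ (X ∪ Y)).card = n → AFDom t i X Y →
      CanForce (edges N) (fun _ Y => HasClique 4 Y) (decide (n % 2 = 0)) X Y := by
  induction n using Nat.strong_induction_on with
  | _ n ihn =>
  by_cases hn : n % 2 = 0
  swap
  · intro i hi X Y hc ⟨φ, hφ, h1, h2⟩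
    rw [decide_eq_false hn]
    refine CanForce.theirs _ _ (card_pos.1 (by omega)) fun e he => ?_
    have := ihn (n - 1) (by omega) i hi X (insert e Y) (by
      have : edges N \ (X ∪ insert e Y) = (edges N \ (X ∪ Y)).erase e := by
        ext x; simp only [mem_erase, mem_sdiff, mem_union, mem_insert]; tauto
      rw [this, card_erase_of_mem he, hc])
      ⟨φ, hφ, fun g hg => mem_insert_of_mem (h1 g hg), h2⟩
    rwa [decide_eq_true (by omega)] at this
  rw [decide_eq_true hn]
  intro i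
  induction i using Nat.strong_induction_on with
  | _ i ihi =>
  intro hi X Y hc ⟨φ, hφ, h1, h2⟩
  rcases Nat.eq_zero_or_pos i with rfl | hi0
  · refine canForce_of_reached _ _ (fun X Y e h => ⟨h, h.mono (subset_insert _ _)⟩) _ _ _ _ rfl ?_
    obtain ⟨S, hS, hs⟩ := h0
    refine ⟨S.image φ, by rw [card_image_of_injective _ hφ, hS], fun u hu v hv huv => ?_⟩
    obtain ⟨a, ha, rfl⟩ := mem_image.1 hu
    obtain ⟨b, hb, rfl⟩ := mem_image.1 hv
    simpa using h1 _ (hs a ha b hb fun h => huv (by rw [h]))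
  by_cases hex : ∃ e ∈ edges N \ (X ∪ Y), ∀ g ∈ RS (t.getM i >>> 160), Sym2.map φ g ≠ e
  · obtain ⟨e, he, hall⟩ := hex
    refine CanForce.mine _ _ e he ?_
    have hpos := card_pos.2 ⟨e, he⟩
    have := ihn (n - 1) (by omega) i hi (insert e X) Y (by
      have : edges N \ (insert e X ∪ Y) = (edges N \ (X ∪ Y)).erase e := by
        ext x; simp only [mem_erase, mem_sdiff, mem_union, mem_insert]; tauto
      rw [this, card_erase_of_mem he, hc])
      ⟨φ, hφ, h1, fun g hg => by
        rw [mem_insert, not_or]; exact ⟨hall g hg, h2 g hg⟩⟩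
    rwa [decide_eq_false (by omega)] at this
  push Not at hex
  obtain ⟨S, hS, hS1, hS2⟩ := hg i hi0 hi
  have hinj : Function.Injective (Sym2.map φ) := Sym2.map.injective hφ
  have : ∃ e ∈ S, Sym2.map φ e ∈ Y := by
    by_contra hcon
    push Not at hcon
    have : edges N \ (X ∪ Y) = S.image (Sym2.map φ) := by
      ext e
      constructor
      · intro he
        obtain ⟨g, hg, rfl⟩ := hex e he
        rcases hS2 g hg with h | h
        · exact mem_image_of_mem _ h
        · simp only [mem_sdiff, mem_union, not_or] at he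
          exact absurd (h1 g h) he.2.2
      · intro he
        obtain ⟨g, hg, rfl⟩ := mem_image.1 he
        simp only [mem_sdiff, mem_union, not_or, edges, mem_filter, mem_univ, true_and]
        exact ⟨by rw [Sym2.isDiag_map hφ]; exact (hS1 g hg).1, h2 g (hS1 g hg).2.1, hcon g hg⟩
    rw [this, card_image_of_injective _ hinj] at hc
    omega
  obtain ⟨e, he, heY⟩ := this
  obtain ⟨c, hc', π, hπ, h3, h4⟩ := (hS1 e he).2.2
  refine ihi c hc' (by omega) X Y hc ⟨φ ∘ π, hφ.comp hπ, fun g hg => ?_, fun g hg => ?_⟩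
  · rw [← Sym2.map_map]
    rcases h3 g hg with h | h
    · exact h1 _ h
    · rw [h]; exact heY
  · rw [← Sym2.map_map]
    exact h2 _ (h4 g hg)

theorem someoneForces_of {N : ℕ} (hN : 9 ≤ N) (t : T) (m : ℕ)
    (hg : ∀ i, 1 ≤ i → i ≤ m → AFGood t i)
    (h0 : HasClique 4 (RS (t.getM 0))) (hm : RS (t.getM m) = ∅) : SomeoneForces N 4 := by
  have := af_sound (N := N) t m hg h0 _ m le_rfl ∅ ∅ rfl
    ⟨Fin.castLE hN, Fin.castLE_injective hN, by simp [hm], by simp⟩
  revert this
  cases decide ((edges N \ (∅ ∪ ∅)).card % 2 = 0)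
  · exact Or.inr
  · exact Or.inl

end Pool.Agent.Lib.MP_d4b800_co
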