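import Pool.Agent.Lib.MP_d4b800_co.Defs

namespace Pool.Agent.Lib.MP_d4b800_co

open Finset

/-- abstract Maker-Breaker game: `R` free elements, `L` live winning sets -/
inductive MW {α ι : Type} [DecidableEq α] (ed : ι → Finset α) : Bool → Finset α → Finset ι → Prop
  | done (t : Bool) (R : Finset α) (L : Finset ι) (K : ι) :
      K ∈ L → Disjoint (ed K) R → MW ed t R L
  | maker (R : Finset α) (L : Finset ι) (e : α) :
      e ∈ R → MW ed false (R.erase e) L → MW ed true R L
  | breaker (R : Finset α) (L : Finset ι) :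
      R.Nonempty → (∀ f ∈ R, MW ed true (R.erase f) (L.filter (fun K => f ∉ ed K))) →
      MW ed false R L

theorem MW.nonempty {α ι : Type} [DecidableEq α] {ed : ι → Finset α} {t R L}
    (h : MW ed t R L) : L.Nonempty := by
  induction h with
  | done t R L K hK _ => exact ⟨K, hK⟩
  | maker R L e _ _ ih => exact ih
  | breaker R L hR _ ih =>
    obtain ⟨f, hf⟩ := hR
    exact (ih f hf).mono (filter_subset _ _)

theorem MW.dom {α ι β κ : Type} [DecidableEq α] [DecidableEq β] {ed : ι → Finset α}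
    {ed' : κ → Finset β} (ψ : α → β) (hψ : Function.Injective ψ) {t' R' L'}
    (h : MW ed' t' R' L') : ∀ (t : Bool) (R : Finset α) (L : Finset ι), (t' = true → t = true) →
      (∀ K' ∈ L', ∃ K ∈ L, ∀ x ∈ ed K, x ∈ R → ψ x ∈ ed' K' ∧ ψ x ∈ R') → MW ed t R L := by
  induction h with
  | done t' R' L' K' hK' hd =>
    intro t R L _ hdom
    obtain ⟨K, hK, hs⟩ := hdom K' hK'
    refine MW.done t R L K hK (disjoint_left.2 fun x hx hxR => ?_)
    exact disjoint_left.1 hd (hs x hx hxR).1 (hs x hx hxR).2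
  | maker R' L' e' he' _ ih =>
    intro t R L ht hdom
    obtain rfl := ht rfl
    by_cases hex : ∃ e ∈ R, ψ e = e'
    · obtain ⟨e, he, rfl⟩ := hex
      refine MW.maker R L e he (ih false _ L (by simp) fun K' hK' => ?_)
      obtain ⟨K, hK, hs⟩ := hdom K' hK'
      refine ⟨K, hK, fun x hx hxR => ?_⟩
      rw [mem_erase] at hxR
      exact ⟨(hs x hx hxR.2).1, mem_erase.2 ⟨fun h => hxR.1 (hψ h), (hs x hx hxR.2).2⟩⟩
    · refine ih true R L (by simp) fun K' hK' => ?_
      obtain ⟨K, hK, hs⟩ := hdom K' hK'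
      refine ⟨K, hK, fun x hx hxR => ?_⟩
      exact ⟨(hs x hx hxR).1, mem_erase.2 ⟨fun h => hex ⟨x, hxR, h⟩, (hs x hx hxR).2⟩⟩
  | breaker R' L' hR' hall ih =>
    intro t R L _ hdom
    obtain ⟨f0, hf0⟩ := hR'
    cases t with
    | true =>
      refine ih f0 hf0 true R L (by simp) fun K' hK' => ?_
      rw [mem_filter] at hK'
      obtain ⟨K, hK, hs⟩ := hdom K' hK'.1
      refine ⟨K, hK, fun x hx hxR => ⟨(hs x hx hxR).1, mem_erase.2 ⟨fun h => ?_, (hs x hx hxR).2⟩⟩⟩
      exact hK'.2 (h ▸ (hs x hx hxR).1)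
    | false =>
      rcases R.eq_empty_or_nonempty with rfl | hR
      · obtain ⟨K', hK'⟩ := (hall f0 hf0).nonempty
        obtain ⟨K, hK, -⟩ := hdom K' (mem_filter.1 hK').1
        exact MW.done _ _ _ K hK (by simp)
      refine MW.breaker R L hR fun f hf => ?_
      by_cases hfR : ψ f ∈ R'
      · refine ih (ψ f) hfR true _ _ (by simp) fun K' hK' => ?_
        rw [mem_filter] at hK'
        obtain ⟨K, hK, hs⟩ := hdom K' hK'.1
        refine ⟨K, mem_filter.2 ⟨hK, fun h => hK'.2 (hs f h hf).1⟩, fun x hx hxR => ?_⟩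
        rw [mem_erase] at hxR
        exact ⟨(hs x hx hxR.2).1, mem_erase.2 ⟨fun h => hxR.1 (hψ h), (hs x hx hxR.2).2⟩⟩
      · refine ih f0 hf0 true _ _ (by simp) fun K' hK' => ?_
        rw [mem_filter] at hK'
        obtain ⟨K, hK, hs⟩ := hdom K' hK'.1
        refine ⟨K, mem_filter.2 ⟨hK, fun h => hfR (hs f h hf).2⟩, fun x hx hxR => ?_⟩
        rw [mem_erase] at hxR
        refine ⟨(hs x hx hxR.2).1, mem_erase.2 ⟨fun h => ?_, (hs x hx hxR.2).2⟩⟩
        exact hK'.2 (h ▸ (hs x hx hxR.2).1)

theorem MW.mono {α ι : Type} [DecidableEq α] {ed : ι → Finset α} {t' R' L'}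
    (h : MW ed t' R' L') (t : Bool) (R : Finset α) (L : Finset ι) (ht : t' = true → t = true)
    (hd : ∀ K ∈ L', K ∈ L ∧ ∀ x ∈ ed K, x ∈ R → x ∈ R') : MW ed t R L :=
  h.dom id Function.injective_id t R L ht fun K hK =>
    ⟨K, (hd K hK).1, fun x hx hxR => ⟨hx, (hd K hK).2 x hx hxR⟩⟩

theorem MW.inv_false {α ι : Type} [DecidableEq α] {ed : ι → Finset α} {R L}
    (h : MW ed false R L) {f : α} (hf : f ∈ R) :
    MW ed true (R.erase f) (L.filter (fun K => f ∉ ed K)) := by
  cases h with
  | done _ _ _ K hK hd =>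
    exact MW.done _ _ _ K (mem_filter.2 ⟨hK, fun h => disjoint_left.1 hd h hf⟩)
      (hd.mono_right (erase_subset _ _))
  | breaker _ _ _ hall => exact hall f hf

theorem MW.inv_true {α ι : Type} [DecidableEq α] {ed : ι → Finset α} {R L}
    (h : MW ed true R L) (hR : R.Nonempty) : ∃ e ∈ R, MW ed false (R.erase e) L := by
  cases h with
  | done _ _ _ K hK hd =>
    obtain ⟨e, he⟩ := hR
    exact ⟨e, he, MW.done _ _ _ K hK (hd.mono_right (erase_subset _ _))⟩
  | maker _ _ e he h => exact ⟨e, he, h⟩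

theorem MW.pair {α ι : Type} [DecidableEq α] {ed : ι → Finset α} {t R L}
    (h : MW ed t R L) : ∀ a b : α, a ∈ R → b ∈ R.erase a →
    MW ed t ((R.erase a).erase b) (L.filter (fun K => ¬ (a ∈ ed K ∧ b ∈ ed K))) := by
  induction h with
  | done t R L K hK hd =>
    intro a b ha _
    exact MW.done _ _ _ K (mem_filter.2 ⟨hK, fun h => disjoint_left.1 hd h.1 ha⟩)
      (hd.mono_right ((erase_subset _ _).trans (erase_subset _ _)))
  | maker R L e he h ih =>
    intro a b ha hb
    have hb' := mem_erase.1 hb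
    by_cases hea : e = a
    · subst hea
      refine (h.inv_false hb).mono _ _ _ (by simp) fun K hK => ?_
      rw [mem_filter] at hK
      exact ⟨mem_filter.2 ⟨hK.1, fun h => hK.2 h.2⟩, fun x _ hx => hx⟩
    by_cases heb : e = b
    · subst heb
      refine (h.inv_false (f := a) (mem_erase.2 ⟨hb'.1.symm, ha⟩)).mono _ _ _ (by simp)
        fun K hK => ?_
      rw [mem_filter] at hK
      exact ⟨mem_filter.2 ⟨hK.1, fun h => hK.2 h.1⟩, fun x _ hx => by
        rwa [erase_right_comm]⟩
    refine MW.maker _ _ e (by simp [hea, heb, he]) ?_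
    have := ih a b (mem_erase.2 ⟨fun h => hea h.symm, ha⟩)
      (mem_erase.2 ⟨hb'.1, mem_erase.2 ⟨fun h => heb h.symm, hb'.2⟩⟩)
    convert this using 1
    ext x; simp only [mem_erase]; tauto
  | breaker R L hR hall ih =>
    intro a b ha hb
    have hb' := mem_erase.1 hb
    rcases ((R.erase a).erase b).eq_empty_or_nonempty with h0 | hne
    · obtain ⟨K, hK⟩ := (hall a ha).nonempty
      rw [mem_filter] at hK
      exact MW.done _ _ _ K (mem_filter.2 ⟨hK.1, fun h => hK.2 h.1⟩) (by simp [h0])
    refine MW.breaker _ _ hne fun f hf => ?_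
    simp only [mem_erase] at hf
    have := ih f hf.2.2 a b (mem_erase.2 ⟨fun h => hf.2.1 h.symm, ha⟩)
      (mem_erase.2 ⟨hb'.1, mem_erase.2 ⟨fun h => hf.1 h.symm, hb'.2⟩⟩)
    convert this using 1
    · ext x; simp only [mem_erase]; tauto
    · ext x; simp only [mem_filter]; tauto

/-- Erdos-Selfridge weight -/
def wt {α ι : Type} [DecidableEq α] (ed : ι → Finset α) (R : Finset α) (K : ι) : ℕ :=
  2 ^ (6 - (ed K ∩ R).card)

theorem wt_erase_mem {α ι : Type} [DecidableEq α] {ed : ι → Finset α} {R : Finset α} {K : ι}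
    {e : α} (h6 : (ed K).card ≤ 6) (he : e ∈ R) (hK : e ∈ ed K) :
    wt ed (R.erase e) K = 2 * wt ed R K := by
  unfold wt
  have h1 : ed K ∩ R.erase e = (ed K ∩ R).erase e := by ext x; simp only [mem_inter, mem_erase]; tauto
  have h2 : e ∈ ed K ∩ R := mem_inter.2 ⟨hK, he⟩
  have h3 : (ed K ∩ R).card ≤ 6 := (card_le_card inter_subset_left).trans h6
  have h4 := card_pos.2 ⟨e, h2⟩
  rw [h1, card_erase_of_mem h2, ← pow_succ']
  congr 1; omega

theorem wt_erase_not_mem {α ι : Type} [DecidableEq α] {ed : ι → Finset α} {R : Finset α} {K : ι}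
    {e : α} (hK : e ∉ ed K) : wt ed (R.erase e) K = wt ed R K := by
  unfold wt
  have h1 : ed K ∩ R.erase e = ed K ∩ R := by
    ext x; simp only [mem_inter, mem_erase]
    constructor
    · tauto
    · rintro ⟨h1, h2⟩; exact ⟨h1, fun h => hK (h ▸ h1), h2⟩
  rw [h1]

theorem MW.es {α ι : Type} [DecidableEq α] {ed : ι → Finset α} {t R L}
    (h : MW ed t R L) (h6 : ∀ K ∈ L, (ed K).card ≤ 6) :
    64 ≤ ∑ K ∈ L, wt ed R K ∨ (t = true ∧ ∃ e ∈ R,
      64 ≤ ∑ K ∈ L, wt ed R K + ∑ K ∈ L.filter (fun K => e ∈ ed K), wt ed R K) := by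
  induction h with
  | done t R L K hK hd =>
    left
    refine le_trans ?_ (single_le_sum (f := wt ed R) (fun _ _ => Nat.zero_le _) hK)
    simp [wt, disjoint_iff_inter_eq_empty.1 hd]
  | maker R L e he _ ih =>
    right
    refine ⟨rfl, e, he, ?_⟩
    rcases ih h6 with h | ⟨h, -⟩
    · refine h.trans (le_of_eq ?_)
      rw [sum_filter, ← sum_add_distrib]
      refine sum_congr rfl fun K hK => ?_
      split_ifs with h1
      · rw [wt_erase_mem (h6 K hK) he h1]; ring
      · rw [wt_erase_not_mem h1]; ring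
    · simp at h
  | breaker R L hR _ ih =>
    left
    obtain ⟨f, hf, hmax⟩ := exists_max_image R
      (fun e => ∑ K ∈ L.filter (fun K => e ∈ ed K), wt ed R K) hR
    have hsplit := sum_filter_add_sum_filter_not L (fun K => f ∈ ed K) (wt ed R)
    have hsame : ∀ S : Finset ι, S ⊆ L.filter (fun K => f ∉ ed K) →
        ∑ K ∈ S, wt ed (R.erase f) K = ∑ K ∈ S, wt ed R K := fun S hS =>
      sum_congr rfl fun K hK => wt_erase_not_mem (mem_filter.1 (hS hK)).2
    rcases ih f hf (fun K hK => h6 K (mem_filter.1 hK).1) with h | ⟨-, e, he, h⟩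
    · rw [hsame _ subset_rfl] at h
      omega
    · rw [hsame _ subset_rfl, hsame _ (filter_subset _ _)] at h
      have h1 := hmax e (mem_erase.1 he).2
      have h2 : ∑ K ∈ (L.filter (fun K => f ∉ ed K)).filter (fun K => e ∈ ed K), wt ed R K ≤
          ∑ K ∈ L.filter (fun K => e ∈ ed K), wt ed R K :=
        sum_le_sum_of_subset (filter_subset_filter _ (filter_subset _ _))
      omega

/-- the edge set of the clique on `S` -/
def cl {V : Type} [Fintype V] [DecidableEq V] (S : Finset V) : Finset (Sym2 V) :=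
  univ.filter (fun e => ¬ e.IsDiag ∧ ∀ v ∈ e, v ∈ S)

theorem mk_mem_cl {V : Type} [Fintype V] [DecidableEq V] {S : Finset V} {u v : V} :
    s(u, v) ∈ cl S ↔ u ≠ v ∧ u ∈ S ∧ v ∈ S := by
  simp [cl]

theorem cl_subset_edges {N : ℕ} (S : Finset (Fin N)) : cl S ⊆ edges N := by
  intro e he
  simp only [cl, edges, mem_filter] at *
  exact ⟨he.1, he.2.1⟩

theorem hasClique_iff {N q : ℕ} {X : Finset (Sym2 (Fin N))} :
    HasClique q X ↔ ∃ S : Finset (Fin N), S.card = q ∧ cl S ⊆ X := by
  refine exists_congr fun S => and_congr_right fun _ => ⟨fun h e he => ?_, fun h u hu v hv huv => ?_⟩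
  · induction e using Sym2.ind with
    | h u v => rw [mk_mem_cl] at he; exact h u he.2.1 v he.2.2 he.1
  · exact h (mk_mem_cl.2 ⟨huv, hu, hv⟩)

/-- live cliques -/
def live {N : ℕ} (q : ℕ) (Y : Finset (Sym2 (Fin N))) : Finset (Finset (Fin N)) :=
  univ.filter (fun S => S.card = q ∧ Disjoint (cl S) Y)

theorem live_insert {N q : ℕ} (Y : Finset (Sym2 (Fin N))) (e : Sym2 (Fin N)) :
    live q (insert e Y) = (live q Y).filter (fun K => e ∉ cl K) := by
  ext S; simp only [live, mem_filter, mem_univ, true_and, disjoint_insert_right]; tauto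

theorem mw_of_canForce {N q : ℕ} {t X Y}
    (h : CanForce (edges N) (fun X _ => HasClique q X) t X Y) (hd : Disjoint X Y) :
    MW cl t (edges N \ (X ∪ Y)) (live q Y) := by
  induction h with
  | finish t X Y h0 hg =>
    obtain ⟨S, hS, hs⟩ := hasClique_iff.1 hg
    exact MW.done _ _ _ S (by simp [live, hS, hd.mono_left hs]) (by simp [h0])
  | mine X Y e he _ ih =>
    refine MW.maker _ _ e he ?_
    have := ih (by
      rw [disjoint_insert_left]; simp only [mem_sdiff, mem_union, not_or] at he; exact ⟨he.2.2, hd⟩)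
    convert this using 1
    ext x; simp only [mem_erase, mem_sdiff, mem_union, mem_insert]; tauto
  | theirs X Y hne _ ih =>
    refine MW.breaker _ _ hne fun f hf => ?_
    have := ih f hf (by
      rw [disjoint_insert_right]; simp only [mem_sdiff, mem_union, not_or] at hf; exact ⟨hf.2.1, hd⟩)
    rw [live_insert] at this
    convert this using 1
    ext x; simp only [mem_erase, mem_sdiff, mem_union, mem_insert]; tauto

/-- a goal depending monotonically on one side, once reached, is forced -/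
theorem canForce_of_reached {α : Type} [DecidableEq α] (board : Finset α)
    (goal : Finset α → Finset α → Prop)
    (hm : ∀ X Y e, goal X Y → goal (insert e X) Y ∧ goal X (insert e Y)) (n : ℕ) :
    ∀ t X Y, (board \ (X ∪ Y)).card = n → goal X Y → CanForce board goal t X Y := by
  induction n with
  | zero => intro t X Y h hg; exact CanForce.finish _ _ _ (card_eq_zero.1 h) hg
  | succ n ih =>
    intro t X Y h hg
    have hne : (board \ (X ∪ Y)).Nonempty := card_pos.1 (by omega)
    cases t with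
    | true =>
      obtain ⟨e, he⟩ := hne
      refine CanForce.mine _ _ e he (ih _ _ _ ?_ (hm X Y e hg).1)
      have : board \ (insert e X ∪ Y) = (board \ (X ∪ Y)).erase e := by
        ext x; simp only [mem_erase, mem_sdiff, mem_union, mem_insert]; tauto
      rw [this, card_erase_of_mem he, h]; rfl
    | false =>
      refine CanForce.theirs _ _ hne fun e he => ih _ _ _ ?_ (hm X Y e hg).2
      have : board \ (X ∪ insert e Y) = (board \ (X ∪ Y)).erase e := by
        ext x; simp only [mem_erase, mem_sdiff, mem_union, mem_insert]; tauto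
      rw [this, card_erase_of_mem he, h]; rfl

theorem HasClique.mono {N q : ℕ} {X Y : Finset (Sym2 (Fin N))} (h : HasClique q X) (hs : X ⊆ Y) :
    HasClique q Y := by
  obtain ⟨S, hS, h⟩ := h
  exact ⟨S, hS, fun u hu v hv huv => hs (h u hu v hv huv)⟩

theorem canForce_of_mw {N q : ℕ} {t R L} (h : MW (cl (V := Fin N)) t R L) :
    ∀ X Y, R = edges N \ (X ∪ Y) → L = live q Y →
      CanForce (edges N) (fun X _ => HasClique q X) t X Y := by
  induction h with
  | done t R L K hK hd =>
    rintro X Y rfl rfl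
    refine canForce_of_reached _ _ (fun X Y e h => ⟨h.mono (subset_insert _ _), h⟩) _ _ _ _ rfl ?_
    simp only [live, mem_filter, mem_univ, true_and] at hK
    refine hasClique_iff.2 ⟨K, hK.1, fun e he => ?_⟩
    have h1 := disjoint_left.1 hd he
    have h2 := disjoint_left.1 hK.2 he
    have h3 := cl_subset_edges K he
    simp only [mem_sdiff, mem_union] at h1
    tauto
  | maker R L e he _ ih =>
    rintro X Y rfl rfl
    refine CanForce.mine _ _ e he (ih _ _ ?_ rfl)
    ext x; simp only [mem_erase, mem_sdiff, mem_union, mem_insert]; tauto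
  | breaker R L hR _ ih =>
    rintro X Y rfl rfl
    refine CanForce.theirs _ _ hR fun e he => ih e he _ _ ?_ (live_insert _ _).symm
    ext x; simp only [mem_erase, mem_sdiff, mem_union, mem_insert]; tauto

theorem steal {N q : ℕ} (n : ℕ) : ∀ X Y : Finset (Sym2 (Fin N)), (edges N \ (X ∪ Y)).card = n →
    Disjoint X Y → ¬ MW cl true (edges N \ (X ∪ Y)) (live q Y) → ¬ MW cl false (edges N \ (X ∪ Y)) (live q X) →
    ∃ X Y : Finset (Sym2 (Fin N)), Disjoint X Y ∧ live q X = ∅ ∧ live q Y = ∅ := by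
  induction n with
  | zero =>
    intro X Y h hd h1 h2
    have h0 := card_eq_zero.1 h
    refine ⟨X, Y, hd, ?_, ?_⟩
    · by_contra hne
      obtain ⟨K, hK⟩ := nonempty_iff_ne_empty.2 hne
      exact h2 (MW.done _ _ _ K hK (by simp [h0]))
    · by_contra hne
      obtain ⟨K, hK⟩ := nonempty_iff_ne_empty.2 hne
      exact h1 (MW.done _ _ _ K hK (by simp [h0]))
  | succ n ih =>
    intro X Y h hd h1 h2
    have hne : (edges N \ (X ∪ Y)).Nonempty := card_pos.1 (by omega)
    have : ∃ f ∈ edges N \ (X ∪ Y), ¬ MW cl true ((edges N \ (X ∪ Y)).erase f)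
        ((live q X).filter (fun K => f ∉ cl K)) := by
      by_contra hc
      push Not at hc
      exact h2 (MW.breaker _ _ hne hc)
    obtain ⟨f, hf, h3⟩ := this
    have e1 : edges N \ (Y ∪ insert f X) = (edges N \ (X ∪ Y)).erase f := by
      ext x; simp only [mem_erase, mem_sdiff, mem_union, mem_insert]; tauto
    refine ih Y (insert f X) ?_ ?_ ?_ ?_
    · rw [e1, card_erase_of_mem hf, h]; rfl
    · rw [disjoint_insert_right]
      simp only [mem_sdiff, mem_union, not_or] at hf
      exact ⟨hf.2.2, hd.symm⟩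
    · rwa [e1, live_insert]
    · rw [e1]; exact fun h => h1 (MW.maker _ _ f hf h)

theorem ramsey_aux (ι : Type*) [LinearOrder ι] (κ : Type*) [Fintype κ] (L : ℕ) :
    ∃ N : ℕ, ∀ (χ : ι → ι → κ) (I : Finset ι), N ≤ I.card →
      ∃ H ⊆ I, H.card = L ∧ ∃ f : ι → κ, ∀ a ∈ H, ∀ b ∈ H, a < b → χ a b = f a := by
  classical
  induction L with
  | zero =>
    refine ⟨2, fun χ I hI => ?_⟩
    obtain ⟨a, ha⟩ : I.Nonempty := Finset.card_pos.mp (by omega)
    exact ⟨∅, by simp, by simp, fun _ => χ a a, by simp⟩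
  | succ L ih =>
    obtain ⟨N, hN⟩ := ih
    refine ⟨Fintype.card κ * N + 2, fun χ I hI => ?_⟩
    have hne : I.Nonempty := Finset.card_pos.mp (by omega)
    set a := I.min' hne with ha
    have haI : a ∈ I := I.min'_mem hne
    have hcard : Fintype.card κ * N < (I.erase a).card := by
      rw [Finset.card_erase_of_mem haI]; omega
    obtain ⟨c, -, hc⟩ := Finset.exists_lt_card_fiber_of_mul_lt_card_of_maps_to
      (s := I.erase a) (t := Finset.univ) (f := fun b => χ a b) (n := N)
      (fun _ _ => Finset.mem_univ _) (by simpa using hcard)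
    obtain ⟨H, hH, hHc, f, hf⟩ := hN χ _ hc.le
    have haH : a ∉ H := fun h => by
      have := hH h
      simp at this
    refine ⟨insert a H, ?_, by rw [Finset.card_insert_of_notMem haH, hHc],
      Function.update f a c, ?_⟩
    · intro x hx
      rcases Finset.mem_insert.mp hx with rfl | hx
      · exact haI
      · have := hH hx
        simp only [Finset.mem_filter, Finset.mem_erase] at this
        exact this.1.2
    · intro x hx y hy hxy
      rcases Finset.mem_insert.mp hx with rfl | hx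
      · rcases Finset.mem_insert.mp hy with rfl | hy
        · exact absurd hxy (lt_irrefl _)
        · have := hH hy
          simp only [Finset.mem_filter] at this
          simp [this.2]
      · have hxa : x ≠ a := fun h => haH (h ▸ hx)
        rcases Finset.mem_insert.mp hy with rfl | hy
        · have := hH hx
          simp only [Finset.mem_filter, Finset.mem_erase] at this
          exact absurd (I.min'_le x this.1.2) (not_le.mpr hxy)
        · rw [Function.update_of_ne hxa]
          exact hf x hx y hy hxy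

theorem ramsey (ι : Type*) [LinearOrder ι] (κ : Type*) [Fintype κ] (M : ℕ) :
    ∃ N : ℕ, ∀ (χ : ι → ι → κ) (I : Finset ι), N ≤ I.card →
      ∃ H ⊆ I, M ≤ H.card ∧ ∃ c : κ, ∀ a ∈ H, ∀ b ∈ H, a < b → χ a b = c := by
  classical
  obtain ⟨N, hN⟩ := ramsey_aux ι κ (Fintype.card κ * M + 1)
  refine ⟨N, fun χ I hI => ?_⟩
  obtain ⟨H, hH, hHc, f, hf⟩ := hN χ I hI
  obtain ⟨c, -, hc⟩ := Finset.exists_lt_card_fiber_of_mul_lt_card_of_maps_to
      (s := H) (t := Finset.univ) (f := f) (n := M)
      (fun _ _ => Finset.mem_univ _) (by simp [hHc])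
  refine ⟨_, (Finset.filter_subset _ _).trans hH, hc.le, c, ?_⟩
  intro a ha b hb hab
  simp only [Finset.mem_filter] at ha hb
  rw [hf a ha.1 b hb.1 hab, ha.2]

theorem exists_makerWins (q : ℕ) : ∃ n, ∀ N, n ≤ N → MakerWins N q := by
  classical
  obtain ⟨n, hn⟩ := ramsey ℕ Bool q
  refine ⟨n, fun N hN => ?_⟩
  by_contra hc
  have h1 : ¬ MW cl true (edges N \ (∅ ∪ ∅)) (live q (∅ : Finset (Sym2 (Fin N)))) :=
    fun h => hc (canForce_of_mw h ∅ ∅ rfl rfl)
  have h2 : ¬ MW cl false (edges N \ (∅ ∪ ∅)) (live q (∅ : Finset (Sym2 (Fin N)))) :=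
    fun h => h1 (h.mono _ _ _ (by simp) fun K hK => ⟨hK, fun _ _ h => h⟩)
  obtain ⟨X, Y, hXY, hX, hY⟩ := steal _ ∅ ∅ rfl (by simp) h1 h2
  obtain ⟨H, hH, hc, c, hcol⟩ := hn
    (fun a b => decide (∃ (ha : a < N) (hb : b < N), s(⟨a, ha⟩, ⟨b, hb⟩) ∈ X)) (range N)
    (by simpa using hN)
  obtain ⟨H', hH', hc'⟩ := exists_subset_card_eq hc
  let S : Finset (Fin N) := univ.filter (fun v => v.1 ∈ H')
  have hS : S.card = q := by
    rw [← hc']
    refine card_bij (fun v _ => v.1) (fun v hv => by simpa [S] using hv)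
      (fun a _ b _ h => Fin.ext h) fun b hb => ?_
    exact ⟨⟨b, mem_range.1 (hH (hH' hb))⟩, by simpa [S] using hb, rfl⟩
  have key : ∀ e ∈ cl S, decide (e ∈ X) = c := by
    intro e he
    induction e using Sym2.ind with
    | h u v =>
      rw [mk_mem_cl] at he
      obtain ⟨huv, hu, hv⟩ := he
      simp only [S, mem_filter, mem_univ, true_and] at hu hv
      rcases lt_or_gt_of_ne huv with h | h
      · rw [← hcol u (hH' hu) v (hH' hv) h]
        simp
      · rw [← hcol v (hH' hv) u (hH' hu) h, Sym2.eq_swap]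
        simp
  cases c with
  | true =>
    have : S ∈ live q Y := by
      simp only [live, mem_filter, mem_univ, true_and]
      refine ⟨hS, disjoint_left.2 fun e he => ?_⟩
      have := key e he
      simp only [decide_eq_true_eq] at this
      exact disjoint_left.1 hXY this
    simp [hY] at this
  | false =>
    have : S ∈ live q X := by
      simp only [live, mem_filter, mem_univ, true_and]
      refine ⟨hS, disjoint_left.2 fun e he => ?_⟩
      simpa using key e he
    simp [hX] at this

end Pool.Agent.Lib.MP_d4b800_co
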