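import Pool.Agent.Lib.MP_d4b800_co.Check
import Pool.Agent.Lib.MP_d4b800_co.Game

namespace Pool.Agent.Lib.MP_d4b800_co

open Finset

def pp (P i : ℕ) : ℕ := (P >>> (4 * i)) &&& 15

def ROWc : ℕ := 1091489375355585052103856091852641130561982010924996392779614352988356362823425341684777807954051583
def COLc : ℕ := 93217421987156346730020518735319501298239213459979712433109610715970577978986461352206571107165586553763206758077614990625785998777516545
def JI : ℕ := 1207744073945406663293950

theorem pp_lt (P i : ℕ) : pp P i < 16 := Nat.lt_succ_of_le Nat.and_le_right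

theorem term_bit (X s M t m : ℕ) (hm : M.testBit m = true) (h : X.testBit (s + m) = true) :
    (((X >>> s) &&& M) <<< t).testBit (m + t) = true := by
  simp [Nat.testBit_shiftLeft, Nat.testBit_shiftRight, hm, h]

theorem rows_eq (X P : ℕ) : rows X P =
    (((X >>> 0) &&& ROWc) <<< (9 * pp P 0)) ||| (((X >>> 9) &&& ROWc) <<< (9 * pp P 1)) ||| (((X >>> 18) &&& ROWc) <<< (9 * pp P 2)) ||| (((X >>> 27) &&& ROWc) <<< (9 * pp P 3)) ||| (((X >>> 36) &&& ROWc) <<< (9 * pp P 4)) ||| (((X >>> 45) &&& ROWc) <<< (9 * pp P 5)) ||| (((X >>> 54) &&& ROWc) <<< (9 * pp P 6)) ||| (((X >>> 63) &&& ROWc) <<< (9 * pp P 7)) ||| (((X >>> 72) &&& ROWc) <<< (9 * pp P 8)) := rfl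

theorem cols_eq (Y P : ℕ) : cols Y P =
    (((Y >>> 0) &&& COLc) <<< (pp P 0)) ||| (((Y >>> 1) &&& COLc) <<< (pp P 1)) ||| (((Y >>> 2) &&& COLc) <<< (pp P 2)) ||| (((Y >>> 3) &&& COLc) <<< (pp P 3)) ||| (((Y >>> 4) &&& COLc) <<< (pp P 4)) ||| (((Y >>> 5) &&& COLc) <<< (pp P 5)) ||| (((Y >>> 6) &&& COLc) <<< (pp P 6)) ||| (((Y >>> 7) &&& COLc) <<< (pp P 7)) ||| (((Y >>> 8) &&& COLc) <<< (pp P 8)) := rfl

theorem rows_bit (X P i m : ℕ) (hi : i < 9) (hm : ROWc.testBit m = true)
    (h : X.testBit (9 * i + m) = true) : (rows X P).testBit (m + 9 * pp P i) = true := by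
  rw [rows_eq]
  simp only [Nat.testBit_or, Bool.or_eq_true]
  interval_cases i
  · have h' := term_bit X 0 ROWc (9 * pp P 0) m hm (by simpa using h)
    exact (Or.inl (Or.inl (Or.inl (Or.inl (Or.inl (Or.inl (Or.inl (Or.inl h'))))))))
  · have h' := term_bit X 9 ROWc (9 * pp P 1) m hm (by simpa using h)
    exact (Or.inl (Or.inl (Or.inl (Or.inl (Or.inl (Or.inl (Or.inl (Or.inr h'))))))))
  · have h' := term_bit X 18 ROWc (9 * pp P 2) m hm (by simpa using h)
    exact (Or.inl (Or.inl (Or.inl (Or.inl (Or.inl (Or.inl (Or.inr h')))))))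
  · have h' := term_bit X 27 ROWc (9 * pp P 3) m hm (by simpa using h)
    exact (Or.inl (Or.inl (Or.inl (Or.inl (Or.inl (Or.inr h'))))))
  · have h' := term_bit X 36 ROWc (9 * pp P 4) m hm (by simpa using h)
    exact (Or.inl (Or.inl (Or.inl (Or.inl (Or.inr h')))))
  · have h' := term_bit X 45 ROWc (9 * pp P 5) m hm (by simpa using h)
    exact (Or.inl (Or.inl (Or.inl (Or.inr h'))))
  · have h' := term_bit X 54 ROWc (9 * pp P 6) m hm (by simpa using h)
    exact (Or.inl (Or.inl (Or.inr h')))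
  · have h' := term_bit X 63 ROWc (9 * pp P 7) m hm (by simpa using h)
    exact (Or.inl (Or.inr h'))
  · have h' := term_bit X 72 ROWc (9 * pp P 8) m hm (by simpa using h)
    exact (Or.inr h')

theorem cols_bit (Y P j m : ℕ) (hj : j < 9) (hm : COLc.testBit m = true)
    (h : Y.testBit (j + m) = true) : (cols Y P).testBit (m + pp P j) = true := by
  rw [cols_eq]
  simp only [Nat.testBit_or, Bool.or_eq_true]
  interval_cases j
  · have h' := term_bit Y 0 COLc (pp P 0) m hm (by simpa using h)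
    exact (Or.inl (Or.inl (Or.inl (Or.inl (Or.inl (Or.inl (Or.inl (Or.inl h'))))))))
  · have h' := term_bit Y 1 COLc (pp P 1) m hm (by simpa using h)
    exact (Or.inl (Or.inl (Or.inl (Or.inl (Or.inl (Or.inl (Or.inl (Or.inr h'))))))))
  · have h' := term_bit Y 2 COLc (pp P 2) m hm (by simpa using h)
    exact (Or.inl (Or.inl (Or.inl (Or.inl (Or.inl (Or.inl (Or.inr h')))))))
  · have h' := term_bit Y 3 COLc (pp P 3) m hm (by simpa using h)
    exact (Or.inl (Or.inl (Or.inl (Or.inl (Or.inl (Or.inr h'))))))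
  · have h' := term_bit Y 4 COLc (pp P 4) m hm (by simpa using h)
    exact (Or.inl (Or.inl (Or.inl (Or.inl (Or.inr h')))))
  · have h' := term_bit Y 5 COLc (pp P 5) m hm (by simpa using h)
    exact (Or.inl (Or.inl (Or.inl (Or.inr h'))))
  · have h' := term_bit Y 6 COLc (pp P 6) m hm (by simpa using h)
    exact (Or.inl (Or.inl (Or.inr h')))
  · have h' := term_bit Y 7 COLc (pp P 7) m hm (by simpa using h)
    exact (Or.inl (Or.inr h'))
  · have h' := term_bit Y 8 COLc (pp P 8) m hm (by simpa using h)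
    exact (Or.inr h')

theorem ROWc_bit : ∀ o < 3, ∀ j < 9, ROWc.testBit (160 * o + j) = true := by decide +kernel
theorem COLc_bit : ∀ o < 3, ∀ j < 16, COLc.testBit (160 * o + 9 * j) = true := by decide +kernel

theorem perm_bit (X P o i j : ℕ) (ho : o < 3) (hi : i < 9) (hj : j < 9)
    (h : X.testBit (160 * o + (9 * i + j)) = true) :
    (cols (rows X P) P).testBit (160 * o + (9 * pp P i + pp P j)) = true := by
  have h1 := rows_bit X P i (160 * o + j) hi (ROWc_bit o ho j hj) (by rw [← h]; congr 1; ring)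
  have h2 := cols_bit (rows X P) P j (160 * o + 9 * pp P i) hj (COLc_bit o ho _ (pp_lt _ _))
    (by rw [← h1]; congr 1; ring)
  rw [← h2]; congr 1; ring

theorem sub_bit {W Y : ℕ} (h : sub W Y = true) {k : ℕ} (hk : W.testBit k = true) :
    Y.testBit k = true := by
  have h1 : W &&& Y = W := Nat.eq_of_beq_eq_true h
  have h2 : (W &&& Y).testBit k = true := by rw [h1]; exact hk
  rw [Nat.testBit_and, Bool.and_eq_true] at h2
  exact h2.2

theorem JI_lt : JI < 2 ^ 81 := by decide +kernel

theorem JI_bit_lt {k : ℕ} (h : JI.testBit k = true) : k < 81 := by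
  by_contra hc
  rw [Nat.testBit_lt_two_pow (JI_lt.trans_le (Nat.pow_le_pow_right (by norm_num) (by omega)))] at h
  exact absurd h (by simp)

theorem JI_spec : ∀ k < 81, (JI.testBit k = true ↔ k / 9 ≠ k % 9) := by decide +kernel

/-- the edge with matrix index `k` -/
def edg (k : ℕ) : Sym2 (Fin 9) := s(Fin.ofNat 9 (k / 9), Fin.ofNat 9 (k % 9))

/-- the edge set coded by a bit matrix -/
def RS (X : ℕ) : Finset (Sym2 (Fin 9)) :=
  ((range 81).filter (fun k => X.testBit k = true)).image edg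

theorem mem_RS {X : ℕ} {e : Sym2 (Fin 9)} :
    e ∈ RS X ↔ ∃ k < 81, X.testBit k = true ∧ edg k = e := by
  simp [RS, and_assoc]

theorem edg_mk (a b : Fin 9) : edg (9 * a.1 + b.1) = s(a, b) := by
  revert a b; decide +kernel

theorem edg_diag : ∀ k < 81, ((edg k).IsDiag ↔ k / 9 = k % 9) := by decide +kernel

theorem getM_marker (t : T) (i k : ℕ) (h : JI.testBit k = true) :
    (t.getM i).testBit (160 * 2 + k) = true := by
  have : t.getM i = t.get i ||| (JI <<< 320) := rfl
  rw [this, Nat.testBit_or, Nat.testBit_shiftLeft]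
  simp [h]

theorem get_lt (t : T) : ∀ i, t.get i < 2 ^ 256 := by
  induction t with
  | leaf n => intro i; exact Nat.lt_succ_of_le (le_trans Nat.and_le_right (by norm_num))
  | node l r ihl ihr =>
    intro i
    show Bool.rec (motive := fun _ => ℕ) (r.get _) (l.get _) _ < _
    cases Nat.beq (Nat.land i 1) 0
    · exact ihr _
    · exact ihl _

theorem getM_high (t : T) (i k : ℕ) (h : (t.getM i).testBit (160 * 2 + k) = true) :
    JI.testBit k = true := by
  have : t.getM i = t.get i ||| (JI <<< 320) := rfl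
  rw [this, Nat.testBit_or, Nat.testBit_shiftLeft, Nat.testBit_lt_two_pow
    ((get_lt t i).trans_le (Nat.pow_le_pow_right (by norm_num) (by omega)))] at h
  simpa using h

/-- the semantic content of a successful permutation check -/
theorem perm_sem (X P Y : ℕ) (hX : ∀ k, JI.testBit k = true → X.testBit (160 * 2 + k) = true)
    (hY : ∀ k, Y.testBit (160 * 2 + k) = true → JI.testBit k = true)
    (h : sub (cols (rows X P) P) Y = true) :
    ∃ π : Fin 9 → Fin 9, Function.Injective π ∧
      (∀ e ∈ RS X, Sym2.map π e ∈ RS Y) ∧ ∀ e ∈ RS (X >>> 160), Sym2.map π e ∈ RS (Y >>> 160) := by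
  have key : ∀ i < 9, ∀ j < 9, i ≠ j → JI.testBit (9 * pp P i + pp P j) = true := by
    intro i hi j hj hij
    refine hY _ (sub_bit h (perm_bit X P 2 i j (by norm_num) hi hj (hX _ ?_)))
    rw [JI_spec _ (by omega)]
    omega
  have hlt : ∀ i < 9, pp P i < 9 := by
    intro i hi
    by_cases h0 : i = 0
    · have := JI_bit_lt (key i hi 1 (by norm_num) (by omega)); omega
    · have := JI_bit_lt (key i hi 0 (by norm_num) h0); omega
  refine ⟨fun a => ⟨pp P a.1, hlt _ a.2⟩, fun a b hab => ?_, ?_⟩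
  · by_contra hne
    have h1 := key a.1 a.2 b.1 b.2 (fun h => hne (Fin.ext h))
    have h2 : pp P a.1 = pp P b.1 := congrArg Fin.val hab
    have h3 := hlt _ a.2
    rw [JI_spec _ (by omega)] at h1
    omega
  have gen : ∀ o < 2, ∀ e ∈ RS (X >>> (160 * o)),
      Sym2.map (fun a : Fin 9 => (⟨pp P a.1, hlt _ a.2⟩ : Fin 9)) e ∈ RS (Y >>> (160 * o)) := by
    intro o ho e he
    obtain ⟨k, hk, hb, rfl⟩ := mem_RS.1 he
    rw [Nat.testBit_shiftRight] at hb
    have h1 := sub_bit h (perm_bit X P o (k / 9) (k % 9) (by omega) (by omega) (by omega)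
      (by rw [← hb]; congr 1; omega))
    have h2 := hlt (k / 9) (by omega)
    have h3 := hlt (k % 9) (by omega)
    refine mem_RS.2 ⟨9 * pp P (k / 9) + pp P (k % 9), by omega, by
      rw [Nat.testBit_shiftRight]; exact h1, ?_⟩
    have e1 : edg k = s((⟨k / 9, by omega⟩ : Fin 9), (⟨k % 9, by omega⟩ : Fin 9)) := by
      rw [← edg_mk]; congr 1; simp only; omega
    rw [e1, Sym2.map_mk, ← edg_mk]
  exact ⟨by simpa using gen 0 (by norm_num), by simpa using gen 1 (by norm_num)⟩

theorem cell_spec : ∀ k < 81, ∀ j < 81, ((cell k).testBit j = true ↔ edg j = edg k) := by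
  decide +kernel

theorem cell_lt : ∀ k < 81, cell k < 2 ^ 81 := by decide +kernel

theorem cell_high {k j : ℕ} (hk : k < 81) (hj : 81 ≤ j) : (cell k).testBit j = false :=
  Nat.testBit_lt_two_pow ((cell_lt k hk).trans_le (Nat.pow_le_pow_right (by norm_num) hj))

theorem log2_bit {R : ℕ} (h : Nat.beq R 0 = false) : R.testBit (Nat.log2 R) = true :=
  Nat.testBit_log2 (Nat.ne_of_beq_eq_false h)

end Pool.Agent.Lib.MP_d4b800_co
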