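import Mathlib

namespace Pool.Agent.Lib.MP_d4b800_co

inductive T where
  | leaf (n : Nat) : T
  | node (l r : T) : T

noncomputable def T.get (t : T) : Nat → Nat :=
  T.rec (motive := fun _ => Nat → Nat)
    (fun n i => Nat.land (Nat.shiftRight n (Nat.mul (nat_lit 256) i)) (nat_lit 115792089237316195423570985008687907853269984665640564039457584007913129639935))
    (fun _ _ l r i => Bool.rec (r (Nat.shiftRight i (nat_lit 1))) (l (Nat.shiftRight i (nat_lit 1)))
      (Nat.beq (Nat.land i (nat_lit 1)) (nat_lit 0))) t

def rows (X P : Nat) : Nat :=
  (Nat.lor (Nat.lor (Nat.lor (Nat.lor (Nat.lor (Nat.lor (Nat.lor (Nat.lor (Nat.shiftLeft (Nat.land (Nat.shiftRight X (nat_lit 0)) (nat_lit 1091489375355585052103856091852641130561982010924996392779614352988356362823425341684777807954051583)) (Nat.mul (nat_lit 9) (Nat.land (Nat.shiftRight P (nat_lit 0)) (nat_lit 15))))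
    (Nat.shiftLeft (Nat.land (Nat.shiftRight X (nat_lit 9)) (nat_lit 1091489375355585052103856091852641130561982010924996392779614352988356362823425341684777807954051583)) (Nat.mul (nat_lit 9) (Nat.land (Nat.shiftRight P (nat_lit 4)) (nat_lit 15)))))
    (Nat.shiftLeft (Nat.land (Nat.shiftRight X (nat_lit 18)) (nat_lit 1091489375355585052103856091852641130561982010924996392779614352988356362823425341684777807954051583)) (Nat.mul (nat_lit 9) (Nat.land (Nat.shiftRight P (nat_lit 8)) (nat_lit 15)))))
    (Nat.shiftLeft (Nat.land (Nat.shiftRight X (nat_lit 27)) (nat_lit 1091489375355585052103856091852641130561982010924996392779614352988356362823425341684777807954051583)) (Nat.mul (nat_lit 9) (Nat.land (Nat.shiftRight P (nat_lit 12)) (nat_lit 15)))))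
    (Nat.shiftLeft (Nat.land (Nat.shiftRight X (nat_lit 36)) (nat_lit 1091489375355585052103856091852641130561982010924996392779614352988356362823425341684777807954051583)) (Nat.mul (nat_lit 9) (Nat.land (Nat.shiftRight P (nat_lit 16)) (nat_lit 15)))))
    (Nat.shiftLeft (Nat.land (Nat.shiftRight X (nat_lit 45)) (nat_lit 1091489375355585052103856091852641130561982010924996392779614352988356362823425341684777807954051583)) (Nat.mul (nat_lit 9) (Nat.land (Nat.shiftRight P (nat_lit 20)) (nat_lit 15)))))
    (Nat.shiftLeft (Nat.land (Nat.shiftRight X (nat_lit 54)) (nat_lit 1091489375355585052103856091852641130561982010924996392779614352988356362823425341684777807954051583)) (Nat.mul (nat_lit 9) (Nat.land (Nat.shiftRight P (nat_lit 24)) (nat_lit 15)))))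
    (Nat.shiftLeft (Nat.land (Nat.shiftRight X (nat_lit 63)) (nat_lit 1091489375355585052103856091852641130561982010924996392779614352988356362823425341684777807954051583)) (Nat.mul (nat_lit 9) (Nat.land (Nat.shiftRight P (nat_lit 28)) (nat_lit 15)))))
    (Nat.shiftLeft (Nat.land (Nat.shiftRight X (nat_lit 72)) (nat_lit 1091489375355585052103856091852641130561982010924996392779614352988356362823425341684777807954051583)) (Nat.mul (nat_lit 9) (Nat.land (Nat.shiftRight P (nat_lit 32)) (nat_lit 15)))))

def cols (Y P : Nat) : Nat :=
  (Nat.lor (Nat.lor (Nat.lor (Nat.lor (Nat.lor (Nat.lor (Nat.lor (Nat.lor (Nat.shiftLeft (Nat.land (Nat.shiftRight Y (nat_lit 0)) (nat_lit 93217421987156346730020518735319501298239213459979712433109610715970577978986461352206571107165586553763206758077614990625785998777516545)) (Nat.land (Nat.shiftRight P (nat_lit 0)) (nat_lit 15)))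
    (Nat.shiftLeft (Nat.land (Nat.shiftRight Y (nat_lit 1)) (nat_lit 93217421987156346730020518735319501298239213459979712433109610715970577978986461352206571107165586553763206758077614990625785998777516545)) (Nat.land (Nat.shiftRight P (nat_lit 4)) (nat_lit 15))))
    (Nat.shiftLeft (Nat.land (Nat.shiftRight Y (nat_lit 2)) (nat_lit 93217421987156346730020518735319501298239213459979712433109610715970577978986461352206571107165586553763206758077614990625785998777516545)) (Nat.land (Nat.shiftRight P (nat_lit 8)) (nat_lit 15))))
    (Nat.shiftLeft (Nat.land (Nat.shiftRight Y (nat_lit 3)) (nat_lit 93217421987156346730020518735319501298239213459979712433109610715970577978986461352206571107165586553763206758077614990625785998777516545)) (Nat.land (Nat.shiftRight P (nat_lit 12)) (nat_lit 15))))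
    (Nat.shiftLeft (Nat.land (Nat.shiftRight Y (nat_lit 4)) (nat_lit 93217421987156346730020518735319501298239213459979712433109610715970577978986461352206571107165586553763206758077614990625785998777516545)) (Nat.land (Nat.shiftRight P (nat_lit 16)) (nat_lit 15))))
    (Nat.shiftLeft (Nat.land (Nat.shiftRight Y (nat_lit 5)) (nat_lit 93217421987156346730020518735319501298239213459979712433109610715970577978986461352206571107165586553763206758077614990625785998777516545)) (Nat.land (Nat.shiftRight P (nat_lit 20)) (nat_lit 15))))
    (Nat.shiftLeft (Nat.land (Nat.shiftRight Y (nat_lit 6)) (nat_lit 93217421987156346730020518735319501298239213459979712433109610715970577978986461352206571107165586553763206758077614990625785998777516545)) (Nat.land (Nat.shiftRight P (nat_lit 24)) (nat_lit 15))))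
    (Nat.shiftLeft (Nat.land (Nat.shiftRight Y (nat_lit 7)) (nat_lit 93217421987156346730020518735319501298239213459979712433109610715970577978986461352206571107165586553763206758077614990625785998777516545)) (Nat.land (Nat.shiftRight P (nat_lit 28)) (nat_lit 15))))
    (Nat.shiftLeft (Nat.land (Nat.shiftRight Y (nat_lit 8)) (nat_lit 93217421987156346730020518735319501298239213459979712433109610715970577978986461352206571107165586553763206758077614990625785998777516545)) (Nat.land (Nat.shiftRight P (nat_lit 32)) (nat_lit 15))))

/-- the node value with the marker block -/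
noncomputable def T.getM (t : T) (i : Nat) : Nat := Nat.lor (t.get i) (nat_lit 2579725684657693625247651232461708137238372544046219672366249011163753686414546251256084415194272840579521914260894515200)

def sub (W Y : Nat) : Bool := Nat.beq (Nat.land W Y) W

def cell (k : Nat) : Nat :=
  Nat.lor (Nat.shiftLeft (nat_lit 1) k) (Nat.shiftLeft (nat_lit 1)
    (Nat.add (Nat.mul (nat_lit 9) (Nat.mod k (nat_lit 9))) (Nat.div k (nat_lit 9))))

/-- one move of a Forcer node -/
noncomputable def afMove (t : T) (i V c P C : Nat) : Bool :=
  Bool.rec false (sub (cols (rows (t.getM c) P) P) (Nat.lor V C)) (Nat.ble (Nat.succ c) i)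

noncomputable def afLoop (t : T) (i V : Nat) (fuel : Nat) : Nat → Nat → Bool → Bool :=
  Nat.rec (motive := fun _ => Nat → Nat → Bool → Bool) (fun _ _ _ => false)
    (fun _ ih R D par => Bool.rec
      (Bool.rec false
        (ih (Nat.xor R (Nat.land R (cell (Nat.log2 R)))) (Nat.shiftRight D (nat_lit 50)) (not par))
        (afMove t i V (Nat.land D (nat_lit 16383)) (Nat.shiftRight D (nat_lit 14)) (cell (Nat.log2 R))))
      par (Nat.beq R (nat_lit 0))) fuel

noncomputable def afNode (t : T) (i V D : Nat) : Bool :=
  and (sub (Nat.lor (Nat.land V (nat_lit 1461501637330902918203684832716283019655932542975)) (Nat.land (Nat.shiftRight V (nat_lit 160)) (nat_lit 1461501637330902918203684832716283019655932542975))) (nat_lit 1207744073945406663293950))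
    (afLoop t i V (nat_lit 40) (Nat.xor (Nat.land (Nat.shiftRight V (nat_lit 160)) (nat_lit 1461501637330902918203684832716283019655932542975))
      (Nat.land V (Nat.land (Nat.shiftRight V (nat_lit 160)) (nat_lit 1461501637330902918203684832716283019655932542975)))) D false)

noncomputable def afRange (t : T) (l : List Nat) : Nat → Bool :=
  List.rec (motive := fun _ => Nat → Bool) (fun _ => true)
    (fun D _ ih i => and (afNode t i (t.getM i) D) (ih (Nat.succ i))) l

end Pool.Agent.Lib.MP_d4b800_co
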