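import Mathlib

namespace Pool.Agent.Lib.MP_d4b800_co

/-- Two players alternately claim one unclaimed element of `board` until all of it is claimed.
`CanForce board goal t X Y`: in the position where the player under consideration owns `X`, the
opponent owns `Y`, and `t = true` iff the player under consideration is to move, that player has
a strategy guaranteeing that the final position `(X', Y')` satisfies `goal X' Y'`. -/
inductive CanForce {α : Type} [DecidableEq α] (board : Finset α)
    (goal : Finset α → Finset α → Prop) : Bool → Finset α → Finset α → Prop
  | finish (t : Bool) (X Y : Finset α) :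
      board \ (X ∪ Y) = ∅ → goal X Y → CanForce board goal t X Y
  | mine (X Y : Finset α) (e : α) :
      e ∈ board \ (X ∪ Y) → CanForce board goal false (insert e X) Y →
      CanForce board goal true X Y
  | theirs (X Y : Finset α) :
      (board \ (X ∪ Y)).Nonempty →
      (∀ e ∈ board \ (X ∪ Y), CanForce board goal true X (insert e Y)) →
      CanForce board goal false X Y

/-- The edge set `X` contains all edges of some copy of `K_q`. -/
def HasClique {N : ℕ} (q : ℕ) (X : Finset (Sym2 (Fin N))) : Prop :=
  ∃ S : Finset (Fin N), S.card = q ∧ ∀ u ∈ S, ∀ v ∈ S, u ≠ v → s(u, v) ∈ X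

/-- The edge set of the complete graph `K_N`. -/
def edges (N : ℕ) : Finset (Sym2 (Fin N)) := Finset.univ.filter (fun e => ¬ e.IsDiag)

/-- The first player (Maker) can force a Weak Win in `[K_N, K_q]`. -/
def MakerWins (N q : ℕ) : Prop :=
  CanForce (edges N) (fun X _ => HasClique q X) true ∅ ∅

/-- In `[K_N, K_q; -]` the first player or the second player can force the other one to occupy
a copy of `K_q`. -/
def SomeoneForces (N q : ℕ) : Prop :=
  CanForce (edges N) (fun _ Y => HasClique q Y) true ∅ ∅ ∨
    CanForce (edges N) (fun _ Y => HasClique q Y) false ∅ ∅

end Pool.Agent.Lib.MP_d4b800_co
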