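import Pool.Agent.Lib.MP_d4b800_co.Bits
import Pool.Agent.Lib.MP_d4b800_co.MBCheck

namespace Pool.Agent.Lib.MP_d4b800_co

open Finset

def enc : ℕ → (ℕ → ℕ) → ℕ
  | 0, _ => 0
  | m + 1, w => w 0 + 65536 * enc m (fun n => w (n + 1))

theorem enc_congr (m : ℕ) : ∀ a b : ℕ → ℕ, (∀ n < m, a n = b n) → enc m a = enc m b := by
  induction m with
  | zero => intro a b _; rfl
  | succ m ih =>
    intro a b h
    simp only [enc]
    rw [h 0 (by omega), ih _ (fun n => b (n + 1)) fun n hn => h (n + 1) (by omega)]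

theorem enc_add (m : ℕ) : ∀ a b : ℕ → ℕ, enc m a + enc m b = enc m (fun n => a n + b n) := by
  induction m with
  | zero => intro a b; rfl
  | succ m ih =>
    intro a b
    simp only [enc]
    rw [← ih]; ring

theorem enc_land (m : ℕ) : ∀ a b : ℕ → ℕ, (∀ n, a n < 65536) → (∀ n, b n < 65536) →
    enc m a &&& enc m b = enc m (fun n => a n &&& b n) := by
  induction m with
  | zero => intro a b _ _; simp [enc]
  | succ m ih =>
    intro a b ha hb
    simp only [enc]
    rw [← ih _ _ (fun n => ha (n + 1)) (fun n => hb (n + 1))]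
    apply Nat.eq_of_testBit_eq
    intro j
    have h3 : a 0 &&& b 0 < 2 ^ 16 := Nat.and_lt_two_pow _ (hb 0)
    rw [Nat.testBit_and, add_comm (a 0), add_comm (b 0), add_comm (a 0 &&& b 0),
      show (65536 : ℕ) = 2 ^ 16 by norm_num, Nat.testBit_two_pow_mul_add _ (ha 0),
      Nat.testBit_two_pow_mul_add _ (hb 0), Nat.testBit_two_pow_mul_add _ h3]
    split_ifs <;> simp

theorem enc_mod (m : ℕ) : ∀ a : ℕ → ℕ, enc m a % 65535 = (∑ n ∈ range m, a n) % 65535 := by
  induction m with
  | zero => intro a; rfl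
  | succ m ih =>
    intro a
    simp only [enc]
    rw [sum_range_succ']
    have := ih (fun n => a (n + 1))
    omega

theorem enc_eq_zero (m : ℕ) : ∀ a : ℕ → ℕ, enc m a = 0 → ∀ n < m, a n = 0 := by
  induction m with
  | zero => intro a _ n hn; omega
  | succ m ih =>
    intro a h n hn
    simp only [enc] at h
    rcases n with _ | n
    · omega
    · exact ih (fun n => a (n + 1)) (by omega) n (by omega)

def kq (n : ℕ) : Finset (Fin 9) := univ.filter (fun v => (kt n).testBit v.1 = true)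

def ed (n : ℕ) : Finset (Sym2 (Fin 9)) := cl (kq n)

theorem kq_card : ∀ n < 126, (kq n).card = 4 := by decide +kernel

theorem kt_inj : ∀ n < 126, ∀ m < 126, kt n = kt m → n = m := by decide +kernel

theorem kq_surj (S : Finset (Fin 9)) (hS : S.card = 4) : ∃ n < 126, kq n = S := by
  have h1 : (range 126).image kq ⊆ powersetCard 4 univ := by
    intro T hT
    obtain ⟨n, hn, rfl⟩ := mem_image.1 hT
    exact mem_powersetCard.2 ⟨subset_univ _, kq_card n (mem_range.1 hn)⟩
  have h2 : ((range 126).image kq).card = 126 := by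
    rw [card_image_of_injOn, card_range]
    intro n hn m hm h
    refine kt_inj n (by simpa using hn) m (by simpa using hm) (Nat.eq_of_testBit_eq fun j => ?_)
    by_cases hj : j < 9
    · have := congrArg (fun T => (⟨j, hj⟩ : Fin 9) ∈ T) h
      simpa [kq] using this
    · have hlt : ∀ x, kt x < 2 ^ j := fun x =>
        lt_of_lt_of_le (Nat.and_lt_two_pow _ (by norm_num : 511 < 2 ^ 9))
          (Nat.pow_le_pow_right (by norm_num) (by omega))
      rw [Nat.testBit_lt_two_pow (hlt n), Nat.testBit_lt_two_pow (hlt m)]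
  have h3 := eq_of_subset_of_card_le h1 (by rw [h2, card_powersetCard]; simp [Nat.choose])
  have h4 : S ∈ (range 126).image kq := by
    rw [h3]; exact mem_powersetCard.2 ⟨subset_univ _, hS⟩
  obtain ⟨n, hn, rfl⟩ := mem_image.1 h4
  exact ⟨n, mem_range.1 hn, rfl⟩

theorem cl_card {V : Type} [Fintype V] [DecidableEq V] (S : Finset V) :
    (cl S).card = S.card.choose 2 := by
  rw [← Sym2.card_image_offDiag]
  congr 1
  ext e
  induction e using Sym2.ind with
  | h u v =>
    rw [mk_mem_cl, mem_image]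
    constructor
    · rintro ⟨h1, h2, h3⟩
      exact ⟨(u, v), mem_offDiag.2 ⟨h2, h3, h1⟩, rfl⟩
    · rintro ⟨⟨a, b⟩, hab, h⟩
      rw [mem_offDiag] at hab
      simp only [Function.uncurry_apply_pair, Sym2.eq_iff] at h hab
      rcases h with ⟨rfl, rfl⟩ | ⟨rfl, rfl⟩
      · exact ⟨hab.2.2, hab.1, hab.2.1⟩
      · exact ⟨hab.2.2.symm, hab.2.1, hab.1⟩

theorem ed_card {n : ℕ} (hn : n < 126) : (ed n).card = 6 := by
  rw [ed, cl_card, kq_card n hn]; rfl

theorem msk_spec : ∀ k < 81, msk k = enc 126 (fun n => if k / 9 ≠ k % 9 ∧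
    (kt n).testBit (k / 9) = true ∧ (kt n).testBit (k % 9) = true then 65535 else 0) := by
  decide +kernel

theorem W0_spec : W0 = enc 126 (fun _ => 1) := by decide +kernel

theorem mem_ed {k : ℕ} (hk : k < 81) (n : ℕ) : edg k ∈ ed n ↔ k / 9 ≠ k % 9 ∧
    (kt n).testBit (k / 9) = true ∧ (kt n).testBit (k % 9) = true := by
  have h1 : k / 9 % 9 = k / 9 := Nat.mod_eq_of_lt (by omega)
  simp [edg, ed, mk_mem_cl, kq, Fin.ext_iff, h1]

theorem land_msk {k : ℕ} (hk : k < 81) (w : ℕ → ℕ) (hw : ∀ n, w n < 65536) :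
    enc 126 w &&& msk k = enc 126 (fun n => if edg k ∈ ed n then w n else 0) := by
  rw [msk_spec k hk, enc_land _ _ _ hw (fun n => by split_ifs <;> norm_num)]
  refine enc_congr _ _ _ fun n _ => ?_
  simp only [← mem_ed hk]
  split_ifs
  · exact Nat.and_two_pow_sub_one_of_lt_two_pow (n := 16) (hw n)
  · simp

def wv (R : Finset (Sym2 (Fin 9))) (L : Finset ℕ) (n : ℕ) : ℕ := if n ∈ L then wt ed R n else 0

theorem wt_le (R : Finset (Sym2 (Fin 9))) (n : ℕ) : wt ed R n ≤ 64 :=
  (Nat.pow_le_pow_right (by norm_num) (Nat.sub_le _ _)).trans (by norm_num)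

theorem wt_pos (R : Finset (Sym2 (Fin 9))) (n : ℕ) : 0 < wt ed R n := Nat.two_pow_pos _

theorem wv_lt (R L n) : wv R L n < 65536 := by
  have := wt_le R n
  unfold wv; split_ifs <;> omega

def Rep (W : ℕ) (R : Finset (Sym2 (Fin 9))) (L : Finset ℕ) : Prop :=
  W = enc 126 (wv R L) ∧ L ⊆ range 126

theorem Rep.dbl {W R L k} (h : Rep W R L) (hk : k < 81) (he : edg k ∈ R) :
    Rep (dbl W k) (R.erase (edg k)) L := by
  refine ⟨?_, h.2⟩
  show W + (W &&& msk k) = _
  rw [h.1, land_msk hk _ (wv_lt R L), enc_add]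
  refine enc_congr _ _ _ fun n hn => ?_
  unfold wv
  split_ifs with h1 h2
  · rw [wt_erase_mem (ed_card hn).le he h2]; ring
  · rw [wt_erase_not_mem h2]; ring
  · rfl
  · rfl

theorem Rep.kil {W R L k} (h : Rep W R L) (hk : k < 81) :
    Rep (kil W k) (R.erase (edg k)) (L.filter (fun n => edg k ∉ ed n)) := by
  refine ⟨?_, (filter_subset _ _).trans h.2⟩
  show W - (W &&& msk k) = _
  rw [h.1, land_msk hk _ (wv_lt R L)]
  refine Nat.sub_eq_of_eq_add ?_
  rw [enc_add]
  refine enc_congr _ _ _ fun n hn => ?_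
  unfold wv
  by_cases h1 : n ∈ L <;> by_cases h2 : edg k ∈ ed n <;> simp [h1, h2, wt_erase_not_mem]

theorem Rep.kil2 {W R L a b} (h : Rep W R L) (ha : a < 81) (hb : b < 81) :
    Rep (kil2 W a b) R (L.filter (fun n => ¬ (edg a ∈ ed n ∧ edg b ∈ ed n))) := by
  refine ⟨?_, (filter_subset _ _).trans h.2⟩
  show W - ((W &&& msk a) &&& msk b) = _
  rw [h.1, land_msk ha _ (wv_lt R L), land_msk hb _ (fun n => by
    have := wv_lt R L n
    split_ifs <;> omega)]
  refine Nat.sub_eq_of_eq_add ?_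
  rw [enc_add]
  refine enc_congr _ _ _ fun n hn => ?_
  unfold wv
  by_cases h1 : n ∈ L <;> by_cases h2 : edg a ∈ ed n <;> by_cases h3 : edg b ∈ ed n <;>
    simp [h1, h2, h3]

theorem sum_wt_lt (R) {L : Finset ℕ} (h : L ⊆ range 126) : ∑ n ∈ L, wt ed R n < 65535 := by
  have h1 : ∑ n ∈ L, wt ed R n ≤ L.card • 64 :=
    sum_le_card_nsmul L (wt ed R) 64 fun n _ => wt_le R n
  have h2 := card_le_card h
  rw [card_range] at h2
  rw [smul_eq_mul] at h1
  omega

theorem sum_wv (R) {L : Finset ℕ} (h : L ⊆ range 126) :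
    ∑ n ∈ range 126, wv R L n = ∑ n ∈ L, wt ed R n := by
  unfold wv
  rw [← sum_filter]
  congr 1
  ext n; simp only [mem_filter]
  exact ⟨fun h => h.2, fun h1 => ⟨h h1, h1⟩⟩

theorem Rep.mod {W R L} (h : Rep W R L) : W % 65535 = ∑ n ∈ L, wt ed R n := by
  rw [h.1, enc_mod, sum_wv R h.2, Nat.mod_eq_of_lt (sum_wt_lt R h.2)]

theorem Rep.land {W R L k} (h : Rep W R L) (hk : k < 81) :
    Rep (W &&& msk k) R (L.filter (fun n => edg k ∈ ed n)) := by
  refine ⟨?_, (filter_subset _ _).trans h.2⟩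
  rw [h.1, land_msk hk _ (wv_lt R L)]
  refine enc_congr _ _ _ fun n hn => ?_
  unfold wv
  by_cases h1 : n ∈ L <;> by_cases h2 : edg k ∈ ed n <;> simp [h1, h2]

theorem Rep.eq_empty {R L} (h : Rep 0 R L) : L = ∅ := by
  refine eq_empty_of_forall_notMem fun n hn => ?_
  have := enc_eq_zero _ _ h.1.symm n (mem_range.1 (h.2 hn))
  have h2 := wt_pos R n
  simp [wv, hn] at this
  omega

def SubU (X : ℕ) : Prop := ∀ j, X.testBit j = true → UT.testBit j = true

theorem UT_lt : UT < 2 ^ 81 := by decide +kernel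

theorem UT_bit_lt {k : ℕ} (h : UT.testBit k = true) : k < 81 := by
  by_contra hc
  rw [Nat.testBit_lt_two_pow (UT_lt.trans_le (Nat.pow_le_pow_right (by norm_num) (by omega)))] at h
  exact absurd h (by simp)

theorem UT_inj : ∀ k < 81, UT.testBit k = true → ∀ j < 81, UT.testBit j = true →
    edg k = edg j → k = j := by decide +kernel

theorem RS_UT : RS UT = edges 9 := by decide +kernel

theorem clr_bit (X k j : ℕ) : (clr X k).testBit j = (X.testBit j ^^ decide (k = j)) := by
  show (X ^^^ (1 <<< k)).testBit j = _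
  rw [Nat.testBit_xor, Nat.one_shiftLeft, Nat.testBit_two_pow]

theorem clr_sub {X k j : ℕ} (hk : X.testBit k = true) (h : (clr X k).testBit j = true) :
    X.testBit j = true := by
  rw [clr_bit] at h
  by_cases hkj : k = j
  · rwa [← hkj]
  · simpa [hkj] using h

theorem SubU.clr {X k : ℕ} (h : SubU X) (hk : X.testBit k = true) : SubU (clr X k) :=
  fun j hj => h j (clr_sub hk hj)

theorem SubU.lt {X k : ℕ} (h : SubU X) (hk : X.testBit k = true) : k < 81 := UT_bit_lt (h k hk)

theorem SubU.mem {X k : ℕ} (h : SubU X) (hk : X.testBit k = true) : edg k ∈ RS X :=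
  mem_RS.2 ⟨k, h.lt hk, hk, rfl⟩

theorem SubU.mem_iff {X k : ℕ} (h : SubU X) (hk : UT.testBit k = true) :
    edg k ∈ RS X ↔ X.testBit k = true := by
  refine ⟨fun h1 => ?_, h.mem⟩
  obtain ⟨j, hj, hb, he⟩ := mem_RS.1 h1
  rwa [← UT_inj j hj (h j hb) k (UT_bit_lt hk) hk he]

theorem SubU.RS_clr {X k : ℕ} (h : SubU X) (hk : X.testBit k = true) :
    RS (Pool.Agent.Lib.MP_d4b800_co.clr X k) = (RS X).erase (edg k) := by
  ext e
  rw [mem_erase, mem_RS, mem_RS]
  constructor
  · rintro ⟨j, hj, hb, rfl⟩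
    refine ⟨fun he => ?_, j, hj, clr_sub hk hb, rfl⟩
    have := UT_inj j hj (h j (clr_sub hk hb)) k (h.lt hk) (h k hk) he
    rw [clr_bit, this, hk] at hb
    simp at hb
  · rintro ⟨hne, j, hj, hb, rfl⟩
    refine ⟨j, hj, ?_, rfl⟩
    have : k ≠ j := fun h => hne (by rw [h])
    rw [clr_bit, hb]; simp [this]

theorem bit_true {X k : ℕ} (h : bit X k = true) : X.testBit k = true := by
  have h1 : (X >>> k) &&& 1 = 1 := Nat.eq_of_beq_eq_true h
  rw [Nat.and_one_is_mod] at h1
  rw [Nat.testBit_eq_decide_div_mod_eq, ← Nat.shiftRight_eq_div_pow, h1]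
  simp

theorem RS_zero' : RS 0 = ∅ := by simp [RS]

theorem finL_sound {W R L} (h : Rep W R L) (Tt fuel : ℕ) : ∀ U, SubU U → finL W Tt fuel U = true →
    Tt ≤ 63 ∧ ∀ e ∈ RS U, Tt + ∑ n ∈ L.filter (fun n => e ∈ ed n), wt ed R n ≤ 63 := by
  induction fuel with
  | zero => intro U _ h; exact absurd h (by simp [finL])
  | succ m ih =>
    intro U hU h1
    have h' : Bool.rec (motive := fun _ => Bool) (Bool.rec false
        (finL W Tt m (clr U (Nat.log2 U)))
        (Nat.ble (Tt + (W &&& msk (Nat.log2 U)) % 65535) 63))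
        (Nat.ble Tt 63) (Nat.beq U 0) = true := h1
    cases hb : Nat.beq U 0 with
    | true =>
      rw [hb] at h'
      obtain rfl := Nat.eq_of_beq_eq_true hb
      exact ⟨Nat.le_of_ble_eq_true h', by simp [RS_zero']⟩
    | false =>
      rw [hb] at h'
      have hbit := log2_bit hb
      cases hm : Nat.ble (Tt + (W &&& msk (Nat.log2 U)) % 65535) 63 with
      | false => rw [hm] at h'; exact absurd h' (by simp)
      | true =>
        rw [hm] at h'
        obtain ⟨h2, h3⟩ := ih _ (hU.clr hbit) h'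
        rw [hU.RS_clr hbit] at h3
        refine ⟨h2, fun e he => ?_⟩
        by_cases hee : e = edg (Nat.log2 U)
        · rw [hee, ← (h.land (hU.lt hbit)).mod]; exact Nat.le_of_ble_eq_true hm
        · exact h3 e (mem_erase.2 ⟨hee, he⟩)

theorem pairL_sound (fuel : ℕ) : ∀ x W R L, Rep W (RS R) L → SubU R → pairL fuel x W R = true →
    ¬ MW ed true (RS R) L := by
  induction fuel with
  | zero => intro x W R L _ _ h; exact absurd h (by simp [pairL])
  | succ m ih =>
    intro x W R L hW hR h1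
    obtain ⟨a, ha⟩ : ∃ a, a = x &&& 127 := ⟨_, rfl⟩
    obtain ⟨b, hb⟩ : ∃ b, b = (x >>> 7) &&& 127 := ⟨_, rfl⟩
    have h' : Bool.rec (motive := fun _ => Bool) (Bool.rec false (Bool.rec false
        (pairL m (x >>> 14) (dbl (dbl (kil2 W a b) a) b) (clr (clr R a) b))
        (bit (clr R a) b)) (bit R a))
        (finL W (W % 65535) 40 R) (Nat.beq x 0) = true := by rw [ha, hb]; exact h1
    cases hx : Nat.beq x 0 with
    | true =>
      rw [hx] at h'
      obtain ⟨h2, h3⟩ := finL_sound hW _ _ R hR h'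
      rw [hW.mod] at h2 h3
      intro hmw
      rcases hmw.es (fun K hK => (ed_card (mem_range.1 (hW.2 hK))).le) with h4 | ⟨-, e, he, h4⟩
      · omega
      · have := h3 e he; omega
    | false =>
      rw [hx] at h'
      cases h2 : bit R a with
      | false => rw [h2] at h'; exact absurd h' (by simp)
      | true =>
        cases h3 : bit (clr R a) b with
        | false => rw [h2, h3] at h'; exact absurd h' (by simp)
        | true =>
          rw [h2, h3] at h'
          have ha1 := bit_true h2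
          have hb1 := bit_true h3
          have hR1 := hR.clr ha1
          have e1 := hR.RS_clr ha1
          have e2 := hR1.RS_clr hb1
          have hb2 := hR1.mem hb1
          rw [e1] at e2 hb2
          have := ih _ _ _ (L.filter (fun n => ¬ (edg a ∈ ed n ∧ edg b ∈ ed n))) (by
            rw [e2]
            exact ((hW.kil2 (hR.lt ha1) (hR1.lt hb1)).dbl (hR.lt ha1) (hR.mem ha1)).dbl
              (hR1.lt hb1) hb2) (hR1.clr hb1) h'
          rw [e2] at this
          exact fun hmw => this (hmw.pair _ _ (hR.mem ha1) hb2)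

def BInv (R : ℕ) (L : Finset ℕ) (acc : ℕ) : Prop :=
  (∀ e ∈ RS acc, ∀ n ∈ L, e ∉ ed n) ∧
  (∀ e ∈ RS (acc >>> 160), (∀ n ∈ L, e ∉ ed n) ∨ e ∈ RS R) ∧
  ∀ k, acc.testBit (160 * 2 + k) = true → JI.testBit k = true

theorem BInv.low {R L acc k} (h : BInv R L acc) (hk : k < 81) (hd : ∀ n ∈ L, edg k ∉ ed n) :
    BInv R L (acc ||| cell k) := by
  refine ⟨fun e he => ?_, fun e he => ?_, fun j hj => ?_⟩
  · obtain ⟨j, hj, hb, rfl⟩ := mem_RS.1 he
    rw [Nat.testBit_or, Bool.or_eq_true] at hb
    rcases hb with hb | hb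
    · exact h.1 _ (mem_RS.2 ⟨j, hj, hb, rfl⟩)
    · rw [(cell_spec k hk j hj).1 hb]; exact hd
  · obtain ⟨j, hj, hb, rfl⟩ := mem_RS.1 he
    rw [Nat.testBit_shiftRight, Nat.testBit_or, cell_high hk (by omega), Bool.or_false] at hb
    exact h.2.1 _ (mem_RS.2 ⟨j, hj, by rwa [Nat.testBit_shiftRight], rfl⟩)
  · rw [Nat.testBit_or, cell_high hk (by omega), Bool.or_false] at hj
    exact h.2.2 j hj

theorem BInv.high {R L acc k} (h : BInv R L acc) (hk : k < 81)
    (hd : (∀ n ∈ L, edg k ∉ ed n) ∨ edg k ∈ RS R) : BInv R L (acc ||| (cell k <<< 160)) := by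
  refine ⟨fun e he => ?_, fun e he => ?_, fun j hj => ?_⟩
  · obtain ⟨j, hj, hb, rfl⟩ := mem_RS.1 he
    rw [Nat.testBit_or, Nat.testBit_shiftLeft, decide_eq_false (by omega), Bool.false_and,
      Bool.or_false] at hb
    exact h.1 _ (mem_RS.2 ⟨j, hj, hb, rfl⟩)
  · obtain ⟨j, hj, hb, rfl⟩ := mem_RS.1 he
    rw [Nat.testBit_shiftRight, Nat.testBit_or, Bool.or_eq_true] at hb
    rcases hb with hb | hb
    · exact h.2.1 _ (mem_RS.2 ⟨j, hj, by rwa [Nat.testBit_shiftRight], rfl⟩)
    · rw [Nat.testBit_shiftLeft, Bool.and_eq_true, Nat.add_sub_cancel_left] at hb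
      rw [(cell_spec k hk j hj).1 hb.2]; exact hd
  · rw [Nat.testBit_or, Nat.testBit_shiftLeft, cell_high hk (by omega), Bool.and_false,
      Bool.or_false] at hj
    exact h.2.2 j hj

theorem buildL_sound {W R Rs L} (hW : Rep W Rs L) (hR : SubU R) (fuel : ℕ) :
    ∀ U acc, SubU U → BInv R L acc → BInv R L (buildL W R fuel U acc) := by
  induction fuel with
  | zero => intro U acc _ h; exact h
  | succ m ih =>
    intro U acc hU h
    have h' : buildL W R (m + 1) U acc = Bool.rec (motive := fun _ => ℕ)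
      (buildL W R m (clr U (Nat.log2 U)) (Bool.rec (motive := fun _ => ℕ)
        (Bool.rec (motive := fun _ => ℕ) acc (acc ||| (cell (Nat.log2 U) <<< 160))
          (bit R (Nat.log2 U)))
        ((acc ||| cell (Nat.log2 U)) ||| (cell (Nat.log2 U) <<< 160))
        (Nat.beq (W &&& msk (Nat.log2 U)) 0))) acc (Nat.beq U 0) := rfl
    rw [h']
    cases hb : Nat.beq U 0 with
    | true => exact h
    | false =>
      have hbit := log2_bit hb
      have hk := hU.lt hbit
      refine ih _ _ (hU.clr hbit) ?_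
      cases hm : Nat.beq (W &&& msk (Nat.log2 U)) 0 with
      | true =>
        have h1 := hW.land hk
        rw [Nat.eq_of_beq_eq_true hm] at h1
        have h2 : ∀ n ∈ L, edg (Nat.log2 U) ∉ ed n := filter_eq_empty_iff.1 h1.eq_empty
        exact (h.low hk h2).high hk (Or.inl h2)
      | false =>
        cases hr : bit R (Nat.log2 U) with
        | true => exact h.high hk (Or.inr (hR.mem (bit_true hr)))
        | false => exact h

def NL (V : ℕ) : Finset ℕ := (range 126).filter (fun n => Disjoint (ed n) (RS (nB V)))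

def MBGood (t : T) (i : ℕ) : Prop := ¬ MW ed true (RS (nR (t.getM i))) (NL (t.getM i))

theorem nB_bit (V j : ℕ) : (nB V).testBit j = (V.testBit j && UT.testBit j) := Nat.testBit_and _ _ _

theorem nR_bit (V j : ℕ) : (nR V).testBit j =
    ((V >>> 160).testBit j && UT.testBit j && !V.testBit j) := by
  show (((V >>> 160) &&& UT) ^^^ ((V >>> 160) &&& nB V)).testBit j = _
  rw [Nat.testBit_xor, Nat.testBit_and, Nat.testBit_and, nB_bit]
  cases (V >>> 160).testBit j <;> cases UT.testBit j <;> cases V.testBit j <;> rfl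

theorem nA_bit (V j : ℕ) : (nA V).testBit j =
    (UT.testBit j && !(V >>> 160).testBit j && !V.testBit j) := by
  show (UT ^^^ (nB V ||| nR V)).testBit j = _
  rw [Nat.testBit_xor, Nat.testBit_or, nB_bit, nR_bit]
  cases (V >>> 160).testBit j <;> cases UT.testBit j <;> cases V.testBit j <;> rfl

theorem subU_UT : SubU UT := fun _ h => h

theorem BInv_init (R L) : BInv R L (JI <<< 320) := by
  refine ⟨fun e he => ?_, fun e he => ?_, fun j hj => ?_⟩
  · obtain ⟨j, hj, hb, rfl⟩ := mem_RS.1 he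
    rw [Nat.testBit_shiftLeft, decide_eq_false (by omega)] at hb
    simp at hb
  · obtain ⟨j, hj, hb, rfl⟩ := mem_RS.1 he
    rw [Nat.testBit_shiftRight, Nat.testBit_shiftLeft, decide_eq_false (by omega)] at hb
    simp at hb
  · rw [Nat.testBit_shiftLeft] at hj
    simpa using hj

theorem mbRef_sound (t : T) (i : ℕ) (hg : ∀ c < i, MBGood t c) {W R L} (c P : ℕ)
    (hW : Rep W (RS R) L) (hR : SubU R) (h : mbRef t i W R c P = true) :
    ¬ MW ed true (RS R) L := by
  have h' : Bool.rec (motive := fun _ => Bool) false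
    (sub (cols (rows (t.getM c) P) P) (buildL W R 40 UT (JI <<< 320))) (Nat.ble (c + 1) i) = true :=
    h
  cases hb : Nat.ble (c + 1) i with
  | false => rw [hb] at h'; exact absurd h' (by simp)
  | true =>
    rw [hb] at h'
    have hinv := buildL_sound hW hR 40 UT _ subU_UT (BInv_init R L)
    obtain ⟨π, hπ, h1, h2⟩ := perm_sem _ P _ (getM_marker t c) hinv.2.2 h'
    intro hmw
    refine hg c (Nat.le_of_ble_eq_true hb) (hmw.dom (Sym2.map π) (Sym2.map.injective hπ) _ _ _
      (by simp) fun K' hK' => ?_)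
    have hbij : Function.Bijective π := Finite.injective_iff_bijective.1 hπ
    obtain ⟨K, hK, hKe⟩ := kq_surj (univ.filter (fun v => π v ∈ kq K')) (by
      rw [← kq_card K' (mem_range.1 (hW.2 hK'))]
      refine card_bij (fun v _ => π v) (fun v hv => by simpa using hv)
        (fun a _ b _ h => hπ h) fun b hb => ?_
      obtain ⟨a, rfl⟩ := hbij.2 b
      exact ⟨a, by simpa using hb, rfl⟩)
    have hmap : ∀ x ∈ ed K, Sym2.map π x ∈ ed K' := by
      intro x hx
      induction x using Sym2.ind with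
      | h u v =>
        rw [ed, hKe, mk_mem_cl] at hx
        rw [Sym2.map_mk, ed, mk_mem_cl]
        exact ⟨fun h => hx.1 (hπ h), by simpa using hx.2.1, by simpa using hx.2.2⟩
    refine ⟨K, mem_filter.2 ⟨mem_range.2 hK, disjoint_left.2 fun x hx hxB => ?_⟩,
      fun x hx hxR => ⟨hmap x hx, ?_⟩⟩
    · obtain ⟨j, hj, hb, rfl⟩ := mem_RS.1 hxB
      rw [nB_bit, Bool.and_eq_true] at hb
      exact hinv.1 _ (h1 _ (mem_RS.2 ⟨j, hj, hb.1, rfl⟩)) K' hK' (hmap _ hx)
    · obtain ⟨j, hj, hb, rfl⟩ := mem_RS.1 hxR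
      rw [nR_bit, Bool.and_eq_true, Bool.and_eq_true] at hb
      rcases hinv.2.1 _ (h2 _ (mem_RS.2 ⟨j, hj, hb.1.1, rfl⟩)) with h3 | h3
      · exact absurd (hmap _ hx) (h3 K' hK')
      · exact h3

theorem mbMove_sound (t : T) (i : ℕ) (hg : ∀ c < i, MBGood t c) {W R L} (d : ℕ)
    (hW : Rep W (RS R) L) (hR : SubU R) (h : mbMove t i W R d = true) :
    ¬ MW ed false (RS R) L := by
  obtain ⟨f, hf⟩ : ∃ f, f = d &&& 127 := ⟨_, rfl⟩
  have h' : Bool.rec (motive := fun _ => Bool) false (Bool.rec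
      (pairL 20 (d >>> 8) (kil W f) (clr R f))
      (mbRef t i (kil W f) (clr R f) ((d >>> 8) &&& 1023) (d >>> 18)) (bit d 7)) (bit R f) = true := by
    rw [hf]; exact h
  cases hb : bit R f with
  | false => rw [hb] at h'; exact absurd h' (by simp)
  | true =>
    rw [hb] at h'
    have h1 := bit_true hb
    have h2 := hW.kil (hR.lt h1)
    intro hmw
    have h3 := hmw.inv_false (hR.mem h1)
    rw [← hR.RS_clr h1] at h2 h3
    cases h7 : bit d 7 with
    | false => rw [h7] at h'; exact pairL_sound _ _ _ _ _ h2 (hR.clr h1) h' h3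
    | true => rw [h7] at h'; exact mbRef_sound t i hg _ _ h2 (hR.clr h1) h' h3

theorem mbLoop_sound (t : T) (i : ℕ) (hg : ∀ c < i, MBGood t c) {W R L}
    (hW : Rep W (RS R) L) (hR : SubU R) (l : List ℕ) :
    ∀ U, (∀ j, U.testBit j = true → R.testBit j = true) → mbLoop t i W R l U = true →
      ∀ e ∈ RS U, ¬ MW ed false ((RS R).erase e) L := by
  induction l with
  | nil =>
    intro U _ h
    obtain rfl : U = 0 := Nat.eq_of_beq_eq_true h
    simp [RS_zero']
  | cons d l ih =>
    intro U hU h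
    have h' : Bool.rec (motive := fun _ => Bool) (Bool.rec false
        (mbLoop t i W R l (clr U (Nat.log2 U)))
        (mbMove t i (dbl W (Nat.log2 U)) (clr R (Nat.log2 U)) d)) true (Nat.beq U 0) = true := h
    cases hb : Nat.beq U 0 with
    | true =>
      obtain rfl := Nat.eq_of_beq_eq_true hb
      simp [RS_zero']
    | false =>
      rw [hb] at h'
      have hbit := log2_bit hb
      have hU' : SubU U := fun j hj => hR j (hU j hj)
      have hbR := hU _ hbit
      cases hm : mbMove t i (dbl W (Nat.log2 U)) (clr R (Nat.log2 U)) d with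
      | false => rw [hm] at h'; exact absurd h' (by simp)
      | true =>
        rw [hm] at h'
        have h1 := ih _ (fun j hj => hU j (clr_sub hbit hj)) h'
        rw [hU'.RS_clr hbit] at h1
        intro e he
        by_cases hee : e = edg (Nat.log2 U)
        · rw [hee, ← hR.RS_clr hbR]
          refine mbMove_sound t i hg d ?_ (hR.clr hbR) hm
          rw [hR.RS_clr hbR]
          exact hW.dbl (hR.lt hbR) (hR.mem hbR)
        · exact h1 e (mem_erase.2 ⟨hee, he⟩)

theorem itL_step {f cont m X W} (h : itL f cont (m + 1) X W = true) :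
    (X = 0 ∧ cont W = true) ∨ (X.testBit (Nat.log2 X) = true ∧
      itL f cont m (clr X (Nat.log2 X)) (f W (Nat.log2 X)) = true) := by
  have h' : Bool.rec (motive := fun _ => Bool)
    (itL f cont m (clr X (Nat.log2 X)) (f W (Nat.log2 X))) (cont W) (Nat.beq X 0) = true := h
  cases hb : Nat.beq X 0 with
  | true => rw [hb] at h'; exact Or.inl ⟨Nat.eq_of_beq_eq_true hb, h'⟩
  | false => rw [hb] at h'; exact Or.inr ⟨log2_bit hb, h'⟩

theorem itL_kil (cont : ℕ → Bool) (fuel : ℕ) : ∀ X W R L, SubU X → Rep W R L →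
    itL kil cont fuel X W = true →
    ∃ W', Rep W' (R \ RS X) (L.filter (fun n => Disjoint (ed n) (RS X))) ∧ cont W' = true := by
  induction fuel with
  | zero => intro X W R L _ _ h; exact absurd h (by simp [itL])
  | succ m ih =>
    intro X W R L hX hW h
    rcases itL_step h with ⟨rfl, h1⟩ | ⟨hb, h1⟩
    · exact ⟨W, by simpa [RS_zero'] using hW, h1⟩
    · obtain ⟨W', h2, h3⟩ := ih _ _ _ _ (hX.clr hb) (hW.kil (hX.lt hb)) h1
      refine ⟨W', ?_, h3⟩
      rw [hX.RS_clr hb] at h2
      have hm := hX.mem hb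
      convert h2 using 1
      · ext x
        simp only [mem_sdiff, mem_erase]
        by_cases hx : x = edg (Nat.log2 X) <;> simp [hx, hm]
      · ext n
        simp only [mem_filter, and_assoc]
        refine and_congr_right fun _ => ?_
        conv_lhs => rw [← insert_erase hm, disjoint_insert_right]

theorem itL_dbl (cont : ℕ → Bool) (fuel : ℕ) : ∀ X W R L, SubU X → RS X ⊆ R → Rep W R L →
    itL dbl cont fuel X W = true → ∃ W', Rep W' (R \ RS X) L ∧ cont W' = true := by
  induction fuel with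
  | zero => intro X W R L _ _ _ h; exact absurd h (by simp [itL])
  | succ m ih =>
    intro X W R L hX hs hW h
    rcases itL_step h with ⟨rfl, h1⟩ | ⟨hb, h1⟩
    · exact ⟨W, by simpa [RS_zero'] using hW, h1⟩
    · have hm := hX.mem hb
      obtain ⟨W', h2, h3⟩ := ih _ _ _ _ (hX.clr hb)
        (by rw [hX.RS_clr hb]; exact erase_subset_erase _ hs) (hW.dbl (hX.lt hb) (hs hm)) h1
      refine ⟨W', ?_, h3⟩
      rw [hX.RS_clr hb] at h2
      convert h2 using 1
      ext x
      simp only [mem_sdiff, mem_erase]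
      by_cases hx : x = edg (Nat.log2 X) <;> simp [hx, hm]

theorem Rep_W0 : Rep W0 (RS UT) (range 126) := by
  refine ⟨?_, subset_rfl⟩
  rw [W0_spec]
  refine enc_congr _ _ _ fun n hn => ?_
  rw [wv, if_pos (mem_range.2 hn), wt, RS_UT,
    inter_eq_left.2 (show ed n ⊆ edges 9 from cl_subset_edges _), ed_card hn]; rfl

theorem mbNode_sound (t : T) (i : ℕ) (hg : ∀ c < i, MBGood t c) (l : List ℕ)
    (h : mbNode t i (t.getM i) l = true) : MBGood t i := by
  unfold MBGood
  obtain ⟨V, hV⟩ : ∃ V, V = t.getM i := ⟨_, rfl⟩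
  rw [← hV] at h ⊢
  have h' : Bool.rec (motive := fun _ => Bool) (itL kil (fun W => itL dbl
    (fun W => mbLoop t i W (nR V) l (nR V)) 40 (nA V) W) 40 (nB V) W0) false
    (Nat.beq (nR V) 0) = true := h
  have sB : SubU (nB V) := fun j hj => by rw [nB_bit] at hj; simp_all
  have sR : SubU (nR V) := fun j hj => by rw [nR_bit] at hj; simp_all
  have sA : SubU (nA V) := fun j hj => by rw [nA_bit] at hj; simp_all
  cases hb : Nat.beq (nR V) 0 with
  | true => rw [hb] at h'; exact absurd h' (by simp)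
  | false =>
    rw [hb] at h'
    obtain ⟨W1, h1, h2⟩ := itL_kil _ _ _ _ _ _ sB Rep_W0 h'
    obtain ⟨W2, h3, h4⟩ := itL_dbl _ _ _ _ _ _ sA (by
      intro e he
      obtain ⟨j, hj, hb, rfl⟩ := mem_RS.1 he
      rw [mem_sdiff, sB.mem_iff (sA j hb), nB_bit]
      refine ⟨subU_UT.mem (sA j hb), ?_⟩
      rw [nA_bit] at hb
      simp_all) h1 h2
    have e1 : (RS UT \ RS (nB V)) \ RS (nA V) = RS (nR V) := by
      ext e
      constructor
      · intro he
        rw [mem_sdiff, mem_sdiff] at he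
        obtain ⟨j, hj, hb, rfl⟩ := mem_RS.1 he.1.1
        rw [sB.mem_iff hb, sA.mem_iff hb, nB_bit, nA_bit] at he
        rw [sR.mem_iff hb, nR_bit]
        cases h5 : (V >>> 160).testBit j <;> simp_all
      · intro he
        obtain ⟨j, hj, hb, rfl⟩ := mem_RS.1 he
        have hu := sR j hb
        rw [mem_sdiff, mem_sdiff, sB.mem_iff hu, sA.mem_iff hu, nB_bit, nA_bit]
        rw [nR_bit] at hb
        refine ⟨⟨subU_UT.mem hu, ?_⟩, ?_⟩ <;> simp_all
    rw [e1] at h3
    intro hmw
    obtain ⟨e, he, h5⟩ := hmw.inv_true ⟨_, sR.mem (log2_bit hb)⟩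
    exact mbLoop_sound t i hg h3 sR l _ (fun _ h => h) h4 e he h5

theorem mbRange_sound (t : T) (l : List (List ℕ)) : ∀ i, (∀ c < i, MBGood t c) →
    mbRange t l i = true → ∀ c < i + l.length, MBGood t c := by
  induction l with
  | nil => intro i hg _ c hc; exact hg c (by simpa using hc)
  | cons D l ih =>
    intro i hg h c hc
    have h' : (mbNode t i (t.getM i) D && mbRange t l (i + 1)) = true := h
    rw [Bool.and_eq_true] at h'
    refine ih (i + 1) (fun c hc => ?_) h'.2 c (by simp at hc; omega)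
    rcases (Nat.lt_succ_iff.1 hc).eq_or_lt with rfl | h3
    · exact mbNode_sound t _ hg D h'.1
    · exact hg c h3

theorem not_makerWins_of (t : T) (m : ℕ) (hg : MBGood t m) (h1 : nB (t.getM m) = 0) :
    ¬ MakerWins 9 4 := by
  intro h
  have h3 := mw_of_canForce h (by simp)
  refine hg (h3.dom id Function.injective_id _ _ _ (by simp) fun S hS => ?_)
  simp only [live, mem_filter, mem_univ, true_and] at hS
  obtain ⟨n, hn, rfl⟩ := kq_surj S hS.1
  refine ⟨n, by simp [NL, h1, RS_zero', hn], fun x hx hxR => ⟨hx, ?_⟩⟩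
  simpa using cl_subset_edges _ hx

end Pool.Agent.Lib.MP_d4b800_co
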