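import Pool.Agent.Lib.MP_d4b800_co.AFSound
import Pool.Agent.Lib.MP_d4b800_co.MBSound
import Pool.Agent.Lib.MP_d4b800_co.AF0
import Pool.Agent.Lib.MP_d4b800_co.AF1
import Pool.Agent.Lib.MP_d4b800_co.AF2
import Pool.Agent.Lib.MP_d4b800_co.AF3
import Pool.Agent.Lib.MP_d4b800_co.AF4
import Pool.Agent.Lib.MP_d4b800_co.AF5
import Pool.Agent.Lib.MP_d4b800_co.AF6
import Pool.Agent.Lib.MP_d4b800_co.AF7
import Pool.Agent.Lib.MP_d4b800_co.MB0
import Pool.Agent.Lib.MP_d4b800_co.MB1
import Pool.Agent.Lib.MP_d4b800_co.MB2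
import Pool.Agent.Lib.MP_d4b800_co.MB3
import Pool.Agent.Lib.MP_d4b800_co.MB4
import Pool.Agent.Lib.MP_d4b800_co.MB5

namespace Pool.Agent.Lib.MP_d4b800_co

theorem af_step {t : T} {l : List ℕ} {i n : ℕ} (h : afRange t l i = true) (hl : i + l.length = n)
    (hg : ∀ j, 1 ≤ j → j < i → AFGood t j) : ∀ j, 1 ≤ j → j < n → AFGood t j := by
  intro j h1 h2
  by_cases h3 : j < i
  · exact hg j h1 h3
  · exact afRange_sound t l i h j (by omega) (by omega)

theorem mb_step {t : T} {l : List (List ℕ)} {i n : ℕ} (h : mbRange t l i = true)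
    (hl : i + l.length = n) (hg : ∀ j < i, MBGood t j) : ∀ j < n, MBGood t j :=
  hl ▸ mbRange_sound t l i hg h

theorem afG1 : ∀ j, 1 ≤ j → j < 1 → AFGood afT j := fun j h1 h2 => by omega

theorem afG101 : ∀ j, 1 ≤ j → j < 101 → AFGood afT j :=
  af_step afC1 (by decide +kernel) afG1

theorem afG201 : ∀ j, 1 ≤ j → j < 201 → AFGood afT j :=
  af_step afC101 (by decide +kernel) afG101

theorem afG301 : ∀ j, 1 ≤ j → j < 301 → AFGood afT j :=
  af_step afC201 (by decide +kernel) afG201

theorem afG401 : ∀ j, 1 ≤ j → j < 401 → AFGood afT j :=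
  af_step afC301 (by decide +kernel) afG301

theorem afG501 : ∀ j, 1 ≤ j → j < 501 → AFGood afT j :=
  af_step afC401 (by decide +kernel) afG401

theorem afG601 : ∀ j, 1 ≤ j → j < 601 → AFGood afT j :=
  af_step afC501 (by decide +kernel) afG501

theorem afG701 : ∀ j, 1 ≤ j → j < 701 → AFGood afT j :=
  af_step afC601 (by decide +kernel) afG601

theorem afG801 : ∀ j, 1 ≤ j → j < 801 → AFGood afT j :=
  af_step afC701 (by decide +kernel) afG701

theorem afG901 : ∀ j, 1 ≤ j → j < 901 → AFGood afT j :=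
  af_step afC801 (by decide +kernel) afG801

theorem afG1001 : ∀ j, 1 ≤ j → j < 1001 → AFGood afT j :=
  af_step afC901 (by decide +kernel) afG901

theorem afG1101 : ∀ j, 1 ≤ j → j < 1101 → AFGood afT j :=
  af_step afC1001 (by decide +kernel) afG1001

theorem afG1201 : ∀ j, 1 ≤ j → j < 1201 → AFGood afT j :=
  af_step afC1101 (by decide +kernel) afG1101

theorem afG1301 : ∀ j, 1 ≤ j → j < 1301 → AFGood afT j :=
  af_step afC1201 (by decide +kernel) afG1201

theorem afG1401 : ∀ j, 1 ≤ j → j < 1401 → AFGood afT j :=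
  af_step afC1301 (by decide +kernel) afG1301

theorem afG1501 : ∀ j, 1 ≤ j → j < 1501 → AFGood afT j :=
  af_step afC1401 (by decide +kernel) afG1401

theorem afG1601 : ∀ j, 1 ≤ j → j < 1601 → AFGood afT j :=
  af_step afC1501 (by decide +kernel) afG1501

theorem afG1701 : ∀ j, 1 ≤ j → j < 1701 → AFGood afT j :=
  af_step afC1601 (by decide +kernel) afG1601

theorem afG1801 : ∀ j, 1 ≤ j → j < 1801 → AFGood afT j :=
  af_step afC1701 (by decide +kernel) afG1701

theorem afG1901 : ∀ j, 1 ≤ j → j < 1901 → AFGood afT j :=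
  af_step afC1801 (by decide +kernel) afG1801

theorem afG2001 : ∀ j, 1 ≤ j → j < 2001 → AFGood afT j :=
  af_step afC1901 (by decide +kernel) afG1901

theorem afG2101 : ∀ j, 1 ≤ j → j < 2101 → AFGood afT j :=
  af_step afC2001 (by decide +kernel) afG2001

theorem afG2201 : ∀ j, 1 ≤ j → j < 2201 → AFGood afT j :=
  af_step afC2101 (by decide +kernel) afG2101

theorem afG2301 : ∀ j, 1 ≤ j → j < 2301 → AFGood afT j :=
  af_step afC2201 (by decide +kernel) afG2201

theorem afG2401 : ∀ j, 1 ≤ j → j < 2401 → AFGood afT j :=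
  af_step afC2301 (by decide +kernel) afG2301

theorem afG2501 : ∀ j, 1 ≤ j → j < 2501 → AFGood afT j :=
  af_step afC2401 (by decide +kernel) afG2401

theorem afG2601 : ∀ j, 1 ≤ j → j < 2601 → AFGood afT j :=
  af_step afC2501 (by decide +kernel) afG2501

theorem afG2701 : ∀ j, 1 ≤ j → j < 2701 → AFGood afT j :=
  af_step afC2601 (by decide +kernel) afG2601

theorem afG2801 : ∀ j, 1 ≤ j → j < 2801 → AFGood afT j :=
  af_step afC2701 (by decide +kernel) afG2701

theorem afG2901 : ∀ j, 1 ≤ j → j < 2901 → AFGood afT j :=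
  af_step afC2801 (by decide +kernel) afG2801

theorem afG3001 : ∀ j, 1 ≤ j → j < 3001 → AFGood afT j :=
  af_step afC2901 (by decide +kernel) afG2901

theorem afG3101 : ∀ j, 1 ≤ j → j < 3101 → AFGood afT j :=
  af_step afC3001 (by decide +kernel) afG3001

theorem afG3201 : ∀ j, 1 ≤ j → j < 3201 → AFGood afT j :=
  af_step afC3101 (by decide +kernel) afG3101

theorem afG3301 : ∀ j, 1 ≤ j → j < 3301 → AFGood afT j :=
  af_step afC3201 (by decide +kernel) afG3201

theorem afG3401 : ∀ j, 1 ≤ j → j < 3401 → AFGood afT j :=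
  af_step afC3301 (by decide +kernel) afG3301

theorem afG3501 : ∀ j, 1 ≤ j → j < 3501 → AFGood afT j :=
  af_step afC3401 (by decide +kernel) afG3401

theorem afG3601 : ∀ j, 1 ≤ j → j < 3601 → AFGood afT j :=
  af_step afC3501 (by decide +kernel) afG3501

theorem afG3701 : ∀ j, 1 ≤ j → j < 3701 → AFGood afT j :=
  af_step afC3601 (by decide +kernel) afG3601

theorem afG3801 : ∀ j, 1 ≤ j → j < 3801 → AFGood afT j :=
  af_step afC3701 (by decide +kernel) afG3701

theorem afG3901 : ∀ j, 1 ≤ j → j < 3901 → AFGood afT j :=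
  af_step afC3801 (by decide +kernel) afG3801

theorem afG4001 : ∀ j, 1 ≤ j → j < 4001 → AFGood afT j :=
  af_step afC3901 (by decide +kernel) afG3901

theorem afG4101 : ∀ j, 1 ≤ j → j < 4101 → AFGood afT j :=
  af_step afC4001 (by decide +kernel) afG4001

theorem afG4201 : ∀ j, 1 ≤ j → j < 4201 → AFGood afT j :=
  af_step afC4101 (by decide +kernel) afG4101

theorem afG4301 : ∀ j, 1 ≤ j → j < 4301 → AFGood afT j :=
  af_step afC4201 (by decide +kernel) afG4201

theorem afG4401 : ∀ j, 1 ≤ j → j < 4401 → AFGood afT j :=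
  af_step afC4301 (by decide +kernel) afG4301

theorem afG4501 : ∀ j, 1 ≤ j → j < 4501 → AFGood afT j :=
  af_step afC4401 (by decide +kernel) afG4401

theorem afG4601 : ∀ j, 1 ≤ j → j < 4601 → AFGood afT j :=
  af_step afC4501 (by decide +kernel) afG4501

theorem afG4701 : ∀ j, 1 ≤ j → j < 4701 → AFGood afT j :=
  af_step afC4601 (by decide +kernel) afG4601

theorem afG4801 : ∀ j, 1 ≤ j → j < 4801 → AFGood afT j :=
  af_step afC4701 (by decide +kernel) afG4701

theorem afG4901 : ∀ j, 1 ≤ j → j < 4901 → AFGood afT j :=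
  af_step afC4801 (by decide +kernel) afG4801

theorem afG5001 : ∀ j, 1 ≤ j → j < 5001 → AFGood afT j :=
  af_step afC4901 (by decide +kernel) afG4901

theorem afG5101 : ∀ j, 1 ≤ j → j < 5101 → AFGood afT j :=
  af_step afC5001 (by decide +kernel) afG5001

theorem afG5201 : ∀ j, 1 ≤ j → j < 5201 → AFGood afT j :=
  af_step afC5101 (by decide +kernel) afG5101

theorem afG5301 : ∀ j, 1 ≤ j → j < 5301 → AFGood afT j :=
  af_step afC5201 (by decide +kernel) afG5201

theorem afG5401 : ∀ j, 1 ≤ j → j < 5401 → AFGood afT j :=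
  af_step afC5301 (by decide +kernel) afG5301

theorem afG5501 : ∀ j, 1 ≤ j → j < 5501 → AFGood afT j :=
  af_step afC5401 (by decide +kernel) afG5401

theorem afG5601 : ∀ j, 1 ≤ j → j < 5601 → AFGood afT j :=
  af_step afC5501 (by decide +kernel) afG5501

theorem afG5701 : ∀ j, 1 ≤ j → j < 5701 → AFGood afT j :=
  af_step afC5601 (by decide +kernel) afG5601

theorem afG5801 : ∀ j, 1 ≤ j → j < 5801 → AFGood afT j :=
  af_step afC5701 (by decide +kernel) afG5701

theorem afG5901 : ∀ j, 1 ≤ j → j < 5901 → AFGood afT j :=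
  af_step afC5801 (by decide +kernel) afG5801

theorem afG6001 : ∀ j, 1 ≤ j → j < 6001 → AFGood afT j :=
  af_step afC5901 (by decide +kernel) afG5901

theorem afG6101 : ∀ j, 1 ≤ j → j < 6101 → AFGood afT j :=
  af_step afC6001 (by decide +kernel) afG6001

theorem afG6201 : ∀ j, 1 ≤ j → j < 6201 → AFGood afT j :=
  af_step afC6101 (by decide +kernel) afG6101

theorem afG6301 : ∀ j, 1 ≤ j → j < 6301 → AFGood afT j :=
  af_step afC6201 (by decide +kernel) afG6201

theorem afG6401 : ∀ j, 1 ≤ j → j < 6401 → AFGood afT j :=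
  af_step afC6301 (by decide +kernel) afG6301

theorem afG6501 : ∀ j, 1 ≤ j → j < 6501 → AFGood afT j :=
  af_step afC6401 (by decide +kernel) afG6401

theorem afG6601 : ∀ j, 1 ≤ j → j < 6601 → AFGood afT j :=
  af_step afC6501 (by decide +kernel) afG6501

theorem afG6701 : ∀ j, 1 ≤ j → j < 6701 → AFGood afT j :=
  af_step afC6601 (by decide +kernel) afG6601

theorem afG6801 : ∀ j, 1 ≤ j → j < 6801 → AFGood afT j :=
  af_step afC6701 (by decide +kernel) afG6701

theorem afG6901 : ∀ j, 1 ≤ j → j < 6901 → AFGood afT j :=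
  af_step afC6801 (by decide +kernel) afG6801

theorem afG7001 : ∀ j, 1 ≤ j → j < 7001 → AFGood afT j :=
  af_step afC6901 (by decide +kernel) afG6901

theorem afG7101 : ∀ j, 1 ≤ j → j < 7101 → AFGood afT j :=
  af_step afC7001 (by decide +kernel) afG7001

theorem afG7201 : ∀ j, 1 ≤ j → j < 7201 → AFGood afT j :=
  af_step afC7101 (by decide +kernel) afG7101

theorem afG7301 : ∀ j, 1 ≤ j → j < 7301 → AFGood afT j :=
  af_step afC7201 (by decide +kernel) afG7201

theorem afG7401 : ∀ j, 1 ≤ j → j < 7401 → AFGood afT j :=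
  af_step afC7301 (by decide +kernel) afG7301

theorem afG7501 : ∀ j, 1 ≤ j → j < 7501 → AFGood afT j :=
  af_step afC7401 (by decide +kernel) afG7401

theorem afG7601 : ∀ j, 1 ≤ j → j < 7601 → AFGood afT j :=
  af_step afC7501 (by decide +kernel) afG7501

theorem afG7701 : ∀ j, 1 ≤ j → j < 7701 → AFGood afT j :=
  af_step afC7601 (by decide +kernel) afG7601

theorem afG7801 : ∀ j, 1 ≤ j → j < 7801 → AFGood afT j :=
  af_step afC7701 (by decide +kernel) afG7701

theorem afG7901 : ∀ j, 1 ≤ j → j < 7901 → AFGood afT j :=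
  af_step afC7801 (by decide +kernel) afG7801

theorem afG8001 : ∀ j, 1 ≤ j → j < 8001 → AFGood afT j :=
  af_step afC7901 (by decide +kernel) afG7901

theorem afG8101 : ∀ j, 1 ≤ j → j < 8101 → AFGood afT j :=
  af_step afC8001 (by decide +kernel) afG8001

theorem afG8201 : ∀ j, 1 ≤ j → j < 8201 → AFGood afT j :=
  af_step afC8101 (by decide +kernel) afG8101

theorem afG8301 : ∀ j, 1 ≤ j → j < 8301 → AFGood afT j :=
  af_step afC8201 (by decide +kernel) afG8201

theorem afG8401 : ∀ j, 1 ≤ j → j < 8401 → AFGood afT j :=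
  af_step afC8301 (by decide +kernel) afG8301

theorem afG8501 : ∀ j, 1 ≤ j → j < 8501 → AFGood afT j :=
  af_step afC8401 (by decide +kernel) afG8401

theorem afG8601 : ∀ j, 1 ≤ j → j < 8601 → AFGood afT j :=
  af_step afC8501 (by decide +kernel) afG8501

theorem afG8701 : ∀ j, 1 ≤ j → j < 8701 → AFGood afT j :=
  af_step afC8601 (by decide +kernel) afG8601

theorem afG8801 : ∀ j, 1 ≤ j → j < 8801 → AFGood afT j :=
  af_step afC8701 (by decide +kernel) afG8701

theorem afG8901 : ∀ j, 1 ≤ j → j < 8901 → AFGood afT j :=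
  af_step afC8801 (by decide +kernel) afG8801

theorem afG9001 : ∀ j, 1 ≤ j → j < 9001 → AFGood afT j :=
  af_step afC8901 (by decide +kernel) afG8901

theorem afG9101 : ∀ j, 1 ≤ j → j < 9101 → AFGood afT j :=
  af_step afC9001 (by decide +kernel) afG9001

theorem afG9201 : ∀ j, 1 ≤ j → j < 9201 → AFGood afT j :=
  af_step afC9101 (by decide +kernel) afG9101

theorem afG9301 : ∀ j, 1 ≤ j → j < 9301 → AFGood afT j :=
  af_step afC9201 (by decide +kernel) afG9201

theorem afG9401 : ∀ j, 1 ≤ j → j < 9401 → AFGood afT j :=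
  af_step afC9301 (by decide +kernel) afG9301

theorem afG9501 : ∀ j, 1 ≤ j → j < 9501 → AFGood afT j :=
  af_step afC9401 (by decide +kernel) afG9401

theorem afG9601 : ∀ j, 1 ≤ j → j < 9601 → AFGood afT j :=
  af_step afC9501 (by decide +kernel) afG9501

theorem afG9701 : ∀ j, 1 ≤ j → j < 9701 → AFGood afT j :=
  af_step afC9601 (by decide +kernel) afG9601

theorem afG9801 : ∀ j, 1 ≤ j → j < 9801 → AFGood afT j :=
  af_step afC9701 (by decide +kernel) afG9701

theorem afG9901 : ∀ j, 1 ≤ j → j < 9901 → AFGood afT j :=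
  af_step afC9801 (by decide +kernel) afG9801

theorem afG10001 : ∀ j, 1 ≤ j → j < 10001 → AFGood afT j :=
  af_step afC9901 (by decide +kernel) afG9901

theorem afG10101 : ∀ j, 1 ≤ j → j < 10101 → AFGood afT j :=
  af_step afC10001 (by decide +kernel) afG10001

theorem afG10201 : ∀ j, 1 ≤ j → j < 10201 → AFGood afT j :=
  af_step afC10101 (by decide +kernel) afG10101

theorem afG10301 : ∀ j, 1 ≤ j → j < 10301 → AFGood afT j :=
  af_step afC10201 (by decide +kernel) afG10201

theorem afG10401 : ∀ j, 1 ≤ j → j < 10401 → AFGood afT j :=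
  af_step afC10301 (by decide +kernel) afG10301

theorem afG10501 : ∀ j, 1 ≤ j → j < 10501 → AFGood afT j :=
  af_step afC10401 (by decide +kernel) afG10401

theorem afG10601 : ∀ j, 1 ≤ j → j < 10601 → AFGood afT j :=
  af_step afC10501 (by decide +kernel) afG10501

theorem afG10701 : ∀ j, 1 ≤ j → j < 10701 → AFGood afT j :=
  af_step afC10601 (by decide +kernel) afG10601

theorem afG10768 : ∀ j, 1 ≤ j → j < 10768 → AFGood afT j :=
  af_step afC10701 (by decide +kernel) afG10701

theorem mbG0 : ∀ j < 0, MBGood mbT j := fun j h => by omega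

theorem mbG10 : ∀ j < 10, MBGood mbT j :=
  mb_step mbC0 (by decide +kernel) mbG0

theorem mbG20 : ∀ j < 20, MBGood mbT j :=
  mb_step mbC10 (by decide +kernel) mbG10

theorem mbG30 : ∀ j < 30, MBGood mbT j :=
  mb_step mbC20 (by decide +kernel) mbG20

theorem mbG40 : ∀ j < 40, MBGood mbT j :=
  mb_step mbC30 (by decide +kernel) mbG30

theorem mbG50 : ∀ j < 50, MBGood mbT j :=
  mb_step mbC40 (by decide +kernel) mbG40

theorem mbG60 : ∀ j < 60, MBGood mbT j :=
  mb_step mbC50 (by decide +kernel) mbG50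

theorem mbG70 : ∀ j < 70, MBGood mbT j :=
  mb_step mbC60 (by decide +kernel) mbG60

theorem mbG80 : ∀ j < 80, MBGood mbT j :=
  mb_step mbC70 (by decide +kernel) mbG70

theorem mbG90 : ∀ j < 90, MBGood mbT j :=
  mb_step mbC80 (by decide +kernel) mbG80

theorem mbG100 : ∀ j < 100, MBGood mbT j :=
  mb_step mbC90 (by decide +kernel) mbG90

theorem mbG110 : ∀ j < 110, MBGood mbT j :=
  mb_step mbC100 (by decide +kernel) mbG100

theorem mbG120 : ∀ j < 120, MBGood mbT j :=
  mb_step mbC110 (by decide +kernel) mbG110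

theorem mbG130 : ∀ j < 130, MBGood mbT j :=
  mb_step mbC120 (by decide +kernel) mbG120

theorem mbG140 : ∀ j < 140, MBGood mbT j :=
  mb_step mbC130 (by decide +kernel) mbG130

theorem mbG150 : ∀ j < 150, MBGood mbT j :=
  mb_step mbC140 (by decide +kernel) mbG140

theorem mbG160 : ∀ j < 160, MBGood mbT j :=
  mb_step mbC150 (by decide +kernel) mbG150

theorem mbG170 : ∀ j < 170, MBGood mbT j :=
  mb_step mbC160 (by decide +kernel) mbG160

theorem mbG180 : ∀ j < 180, MBGood mbT j :=
  mb_step mbC170 (by decide +kernel) mbG170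

theorem mbG190 : ∀ j < 190, MBGood mbT j :=
  mb_step mbC180 (by decide +kernel) mbG180

theorem mbG200 : ∀ j < 200, MBGood mbT j :=
  mb_step mbC190 (by decide +kernel) mbG190

theorem mbG210 : ∀ j < 210, MBGood mbT j :=
  mb_step mbC200 (by decide +kernel) mbG200

theorem mbG220 : ∀ j < 220, MBGood mbT j :=
  mb_step mbC210 (by decide +kernel) mbG210

theorem mbG230 : ∀ j < 230, MBGood mbT j :=
  mb_step mbC220 (by decide +kernel) mbG220

theorem mbG240 : ∀ j < 240, MBGood mbT j :=
  mb_step mbC230 (by decide +kernel) mbG230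

theorem mbG250 : ∀ j < 250, MBGood mbT j :=
  mb_step mbC240 (by decide +kernel) mbG240

theorem mbG260 : ∀ j < 260, MBGood mbT j :=
  mb_step mbC250 (by decide +kernel) mbG250

theorem mbG270 : ∀ j < 270, MBGood mbT j :=
  mb_step mbC260 (by decide +kernel) mbG260

theorem mbG280 : ∀ j < 280, MBGood mbT j :=
  mb_step mbC270 (by decide +kernel) mbG270

theorem mbG290 : ∀ j < 290, MBGood mbT j :=
  mb_step mbC280 (by decide +kernel) mbG280

theorem mbG300 : ∀ j < 300, MBGood mbT j :=
  mb_step mbC290 (by decide +kernel) mbG290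

theorem mbG310 : ∀ j < 310, MBGood mbT j :=
  mb_step mbC300 (by decide +kernel) mbG300

theorem mbG320 : ∀ j < 320, MBGood mbT j :=
  mb_step mbC310 (by decide +kernel) mbG310

theorem mbG330 : ∀ j < 330, MBGood mbT j :=
  mb_step mbC320 (by decide +kernel) mbG320

theorem mbG340 : ∀ j < 340, MBGood mbT j :=
  mb_step mbC330 (by decide +kernel) mbG330

theorem mbG350 : ∀ j < 350, MBGood mbT j :=
  mb_step mbC340 (by decide +kernel) mbG340

theorem mbG360 : ∀ j < 360, MBGood mbT j :=
  mb_step mbC350 (by decide +kernel) mbG350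

theorem mbG370 : ∀ j < 370, MBGood mbT j :=
  mb_step mbC360 (by decide +kernel) mbG360

theorem mbG380 : ∀ j < 380, MBGood mbT j :=
  mb_step mbC370 (by decide +kernel) mbG370

theorem mbG390 : ∀ j < 390, MBGood mbT j :=
  mb_step mbC380 (by decide +kernel) mbG380

theorem mbG400 : ∀ j < 400, MBGood mbT j :=
  mb_step mbC390 (by decide +kernel) mbG390

theorem mbG410 : ∀ j < 410, MBGood mbT j :=
  mb_step mbC400 (by decide +kernel) mbG400

theorem mbG420 : ∀ j < 420, MBGood mbT j :=
  mb_step mbC410 (by decide +kernel) mbG410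

theorem mbG430 : ∀ j < 430, MBGood mbT j :=
  mb_step mbC420 (by decide +kernel) mbG420

theorem mbG440 : ∀ j < 440, MBGood mbT j :=
  mb_step mbC430 (by decide +kernel) mbG430

theorem mbG450 : ∀ j < 450, MBGood mbT j :=
  mb_step mbC440 (by decide +kernel) mbG440

theorem mbG460 : ∀ j < 460, MBGood mbT j :=
  mb_step mbC450 (by decide +kernel) mbG450

theorem mbG470 : ∀ j < 470, MBGood mbT j :=
  mb_step mbC460 (by decide +kernel) mbG460

theorem mbG480 : ∀ j < 480, MBGood mbT j :=
  mb_step mbC470 (by decide +kernel) mbG470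

theorem mbG490 : ∀ j < 490, MBGood mbT j :=
  mb_step mbC480 (by decide +kernel) mbG480

theorem mbG500 : ∀ j < 500, MBGood mbT j :=
  mb_step mbC490 (by decide +kernel) mbG490

theorem mbG510 : ∀ j < 510, MBGood mbT j :=
  mb_step mbC500 (by decide +kernel) mbG500

theorem mbG520 : ∀ j < 520, MBGood mbT j :=
  mb_step mbC510 (by decide +kernel) mbG510

theorem mbG530 : ∀ j < 530, MBGood mbT j :=
  mb_step mbC520 (by decide +kernel) mbG520

theorem mbG540 : ∀ j < 540, MBGood mbT j :=
  mb_step mbC530 (by decide +kernel) mbG530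

theorem mbG550 : ∀ j < 550, MBGood mbT j :=
  mb_step mbC540 (by decide +kernel) mbG540

theorem mbG560 : ∀ j < 560, MBGood mbT j :=
  mb_step mbC550 (by decide +kernel) mbG550

theorem mbG570 : ∀ j < 570, MBGood mbT j :=
  mb_step mbC560 (by decide +kernel) mbG560

theorem mbG580 : ∀ j < 580, MBGood mbT j :=
  mb_step mbC570 (by decide +kernel) mbG570

theorem mbG590 : ∀ j < 590, MBGood mbT j :=
  mb_step mbC580 (by decide +kernel) mbG580

theorem mbG600 : ∀ j < 600, MBGood mbT j :=
  mb_step mbC590 (by decide +kernel) mbG590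

theorem mbG610 : ∀ j < 610, MBGood mbT j :=
  mb_step mbC600 (by decide +kernel) mbG600

theorem mbG620 : ∀ j < 620, MBGood mbT j :=
  mb_step mbC610 (by decide +kernel) mbG610

theorem mbG630 : ∀ j < 630, MBGood mbT j :=
  mb_step mbC620 (by decide +kernel) mbG620

theorem mbG640 : ∀ j < 640, MBGood mbT j :=
  mb_step mbC630 (by decide +kernel) mbG630

theorem mbG650 : ∀ j < 650, MBGood mbT j :=
  mb_step mbC640 (by decide +kernel) mbG640

theorem mbG660 : ∀ j < 660, MBGood mbT j :=
  mb_step mbC650 (by decide +kernel) mbG650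

theorem mbG670 : ∀ j < 670, MBGood mbT j :=
  mb_step mbC660 (by decide +kernel) mbG660

theorem mbG680 : ∀ j < 680, MBGood mbT j :=
  mb_step mbC670 (by decide +kernel) mbG670

theorem mbG690 : ∀ j < 690, MBGood mbT j :=
  mb_step mbC680 (by decide +kernel) mbG680

theorem mbG700 : ∀ j < 700, MBGood mbT j :=
  mb_step mbC690 (by decide +kernel) mbG690

theorem mbG710 : ∀ j < 710, MBGood mbT j :=
  mb_step mbC700 (by decide +kernel) mbG700

theorem mbG720 : ∀ j < 720, MBGood mbT j :=
  mb_step mbC710 (by decide +kernel) mbG710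

theorem mbG730 : ∀ j < 730, MBGood mbT j :=
  mb_step mbC720 (by decide +kernel) mbG720

theorem mbG740 : ∀ j < 740, MBGood mbT j :=
  mb_step mbC730 (by decide +kernel) mbG730

theorem mbG750 : ∀ j < 750, MBGood mbT j :=
  mb_step mbC740 (by decide +kernel) mbG740

theorem mbG760 : ∀ j < 760, MBGood mbT j :=
  mb_step mbC750 (by decide +kernel) mbG750

theorem mbG770 : ∀ j < 770, MBGood mbT j :=
  mb_step mbC760 (by decide +kernel) mbG760

theorem mbG780 : ∀ j < 780, MBGood mbT j :=
  mb_step mbC770 (by decide +kernel) mbG770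

theorem mbG790 : ∀ j < 790, MBGood mbT j :=
  mb_step mbC780 (by decide +kernel) mbG780

theorem mbG800 : ∀ j < 800, MBGood mbT j :=
  mb_step mbC790 (by decide +kernel) mbG790

theorem mbG810 : ∀ j < 810, MBGood mbT j :=
  mb_step mbC800 (by decide +kernel) mbG800

theorem mbG820 : ∀ j < 820, MBGood mbT j :=
  mb_step mbC810 (by decide +kernel) mbG810

theorem mbG830 : ∀ j < 830, MBGood mbT j :=
  mb_step mbC820 (by decide +kernel) mbG820

theorem mbG840 : ∀ j < 840, MBGood mbT j :=
  mb_step mbC830 (by decide +kernel) mbG830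

theorem mbG850 : ∀ j < 850, MBGood mbT j :=
  mb_step mbC840 (by decide +kernel) mbG840

theorem mbG860 : ∀ j < 860, MBGood mbT j :=
  mb_step mbC850 (by decide +kernel) mbG850

theorem mbG870 : ∀ j < 870, MBGood mbT j :=
  mb_step mbC860 (by decide +kernel) mbG860

theorem mbG880 : ∀ j < 880, MBGood mbT j :=
  mb_step mbC870 (by decide +kernel) mbG870

theorem mbG890 : ∀ j < 890, MBGood mbT j :=
  mb_step mbC880 (by decide +kernel) mbG880

theorem mbG900 : ∀ j < 900, MBGood mbT j :=
  mb_step mbC890 (by decide +kernel) mbG890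

theorem mbG906 : ∀ j < 906, MBGood mbT j :=
  mb_step mbC900 (by decide +kernel) mbG900

theorem not_makerWins_nine : ¬ MakerWins 9 4 :=
  not_makerWins_of mbT 905 (mbG906 905 (by norm_num)) (by decide +kernel)

theorem RS_congr {X Y : ℕ} (h : ∀ k < 81, X.testBit k = Y.testBit k) : RS X = RS Y := by
  ext e
  rw [mem_RS, mem_RS]
  exact exists_congr fun k => and_congr_right fun hk => by rw [h k hk]

theorem someoneForces_of_le {N : ℕ} (hN : 9 ≤ N) : SomeoneForces N 4 := by
  refine someoneForces_of hN afT 10767 (fun i h1 h2 => afG10768 i h1 (by omega)) ?_ ?_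
  · refine ⟨{0, 1, 2, 3}, by decide, fun u hu v hv huv => ?_⟩
    have : ∀ u ∈ ({0, 1, 2, 3} : Finset (Fin 9)), ∀ v ∈ ({0, 1, 2, 3} : Finset (Fin 9)), u ≠ v →
      (afT.getM 0).testBit (9 * u.1 + v.1) = true := by decide +kernel
    exact mem_RS.2 ⟨9 * u.1 + v.1, by omega, this u hu v hv huv, edg_mk u v⟩
  · rw [← RS_zero]
    exact RS_congr (by decide +kernel)

end Pool.Agent.Lib.MP_d4b800_co
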